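import Mathlib
import Pool.Agent.Lib_helper10.LogRank.Cube

set_option autoImplicit false
set_option linter.unusedSectionVars false
set_option linter.unusedVariables false

/-! Block sensitivity and certificates for Boolean functions on a group with a notion of
support, from vanishing of iterated differences. -/

namespace Pool.Agent.Lib_helper11.GrpRank

open Finset Pool.Agent.Lib_helper10.LogRank

/-- A notion of support (positions) on a group. -/
structure Pos (G : Type) [Group G] (P : Type) [DecidableEq P] where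
  supp : G → Finset P
  one : supp 1 = ∅
  eq_one : ∀ g, supp g = ∅ → g = 1
  inv : ∀ g, supp g⁻¹ ⊆ supp g
  mul : ∀ g h, supp (g * h) ⊆ supp g ∪ supp h
  comm : ∀ g h, Disjoint (supp g) (supp h) → Commute g h
  red : ∀ g, g ≠ 1 → ∃ (m : Type) (_ : Fintype m) (τ : m → G),
    (supp g).card ≤ 6 * Fintype.card m ∧
    (Pairwise fun i j => Disjoint (supp (τ i)) (supp (τ j))) ∧ ∀ i, supp (τ i * g) ⊂ supp g

/-- iterated differences -/
def altD {G : Type} [Group G] : List G → (G → ℝ) → (G → ℝ)
  | [], F => F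
  | β :: l, F => fun σ => altD l F σ - altD l F (β * σ)

section mobius

variable {κ : Type} [Fintype κ] [DecidableEq κ]

theorem sum_interval (V W : Finset κ) (hW : W ⊆ V) :
    ∑ S ∈ V.powerset with W ⊆ S, (-1 : ℝ) ^ S.card * (-1 : ℝ) ^ W.card
      = if W = V then 1 else 0 := by
  have h1 : ∑ S ∈ V.powerset with W ⊆ S, (-1 : ℝ) ^ S.card * (-1 : ℝ) ^ W.card
      = ∑ R ∈ (V \ W).powerset, (-1 : ℝ) ^ R.card := by
    refine Finset.sum_nbij' (fun S => S \ W) (fun R => R ∪ W) ?_ ?_ ?_ ?_ ?_
    · intro S hS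
      simp only [mem_filter, mem_powerset] at hS ⊢
      exact sdiff_subset_sdiff hS.1 le_rfl
    · intro R hR
      simp only [mem_filter, mem_powerset] at hR ⊢
      exact ⟨union_subset (hR.trans sdiff_subset) hW, subset_union_right⟩
    · intro S hS
      simp only [mem_filter, mem_powerset] at hS
      exact sdiff_union_of_subset hS.2
    · intro R hR
      simp only [mem_powerset] at hR
      rw [union_sdiff_right]
      exact sdiff_eq_self_of_disjoint (disjoint_of_subset_left hR sdiff_disjoint)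
    · intro S hS
      simp only [mem_filter, mem_powerset] at hS
      have : S.card = (S \ W).card + W.card := by
        rw [card_sdiff_add_card_eq_card hS.2]
      rw [this, pow_add, mul_assoc, ← pow_add, ← two_mul, pow_mul]
      simp
  rw [h1]
  have h2 := Finset.sum_powerset_neg_one_pow_card (x := V \ W)
  have h3 : ∑ R ∈ (V \ W).powerset, (-1 : ℝ) ^ R.card
      = ((∑ R ∈ (V \ W).powerset, (-1 : ℤ) ^ R.card : ℤ) : ℝ) := by push_cast; rfl
  rw [h3, h2]
  by_cases h : W = V
  · simp [h]
  · have : V \ W ≠ ∅ := by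
      rw [Ne, sdiff_eq_empty_iff_subset]
      intro h'
      exact h (subset_antisymm hW h')
    simp [h, this]

theorem mem_cubeLow_of_alt {d : ℕ} {h : Finset κ → ℝ}
    (hh : ∀ S : Finset κ, d < S.card → ∑ W ∈ S.powerset, (-1 : ℝ) ^ W.card * h W = 0) :
    h ∈ cubeLow κ d := by
  have key : h = ∑ S : Finset κ, ((-1 : ℝ) ^ S.card * ∑ W ∈ S.powerset, (-1 : ℝ) ^ W.card * h W) •
      (fun V : Finset κ => if S ⊆ V then (1 : ℝ) else 0) := by
    funext V
    rw [Finset.sum_apply]
    simp only [Pi.smul_apply, smul_eq_mul, mul_ite, mul_one, mul_zero]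
    rw [← Finset.sum_filter]
    have e1 : (Finset.univ.filter fun S : Finset κ => S ⊆ V) = V.powerset := by
      ext S; simp
    rw [e1]
    simp_rw [Finset.mul_sum]
    rw [Finset.sum_comm' (t' := V.powerset) (s' := fun W => V.powerset.filter fun S => W ⊆ S)]
    · have e2 : ∀ W ∈ V.powerset, (∑ S ∈ V.powerset with W ⊆ S,
          (-1 : ℝ) ^ S.card * ((-1 : ℝ) ^ W.card * h W)) = if W = V then h V else 0 := by
        intro W hW
        have e3 := sum_interval V W (mem_powerset.1 hW)
        calc (∑ S ∈ V.powerset with W ⊆ S, (-1 : ℝ) ^ S.card * ((-1 : ℝ) ^ W.card * h W))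
            = (∑ S ∈ V.powerset with W ⊆ S, (-1 : ℝ) ^ S.card * (-1 : ℝ) ^ W.card) * h W := by
              rw [Finset.sum_mul]
              exact Finset.sum_congr rfl fun S _ => by ring
          _ = _ := by
              rw [e3]
              split_ifs with h'
              · rw [h', one_mul]
              · rw [zero_mul]
      rw [Finset.sum_congr rfl e2, Finset.sum_ite_eq' V.powerset V]
      simp
    · intro S W
      simp only [mem_powerset, mem_filter]
      constructor
      · rintro ⟨h1, h2⟩; exact ⟨⟨h1, h2⟩, h2.trans h1⟩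
      · rintro ⟨⟨h1, h2⟩, _⟩; exact ⟨h1, h2⟩
  rw [key]
  refine Submodule.sum_mem _ fun S _ => ?_
  by_cases hS : d < S.card
  · rw [hh S hS, mul_zero, zero_smul]; exact Submodule.zero_mem _
  · refine Submodule.smul_mem _ _ (Submodule.subset_span ⟨S, not_lt.1 hS, fun V => ?_⟩)
    simp [subset_inter_iff]

theorem one_mem_cubeLow (d : ℕ) : (fun _ : Finset κ => (1 : ℝ)) ∈ cubeLow κ d :=
  Submodule.subset_span ⟨∅, by simp, fun _ => rfl⟩

end mobius

section blocks

variable {G : Type} [Group G] {P : Type} [DecidableEq P] (S : Pos G P)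
variable {κ : Type} [Fintype κ] [DecidableEq κ]

theorem Pos.pairwise_comm (β : κ → G)
    (hβ : Pairwise fun i j => Disjoint (S.supp (β i)) (S.supp (β j))) (W : Finset κ) :
    (W : Set κ).Pairwise (Function.onFun Commute β) :=
  fun i _ j _ hij => S.comm _ _ (hβ hij)

/-- product of the blocks in `W` -/
noncomputable def Pos.pw (β : κ → G)
    (hβ : Pairwise fun i j => Disjoint (S.supp (β i)) (S.supp (β j))) (W : Finset κ) : G :=
  W.noncommProd β (S.pairwise_comm β hβ W)

theorem Pos.sum_alt (β : κ → G)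
    (hβ : Pairwise fun i j => Disjoint (S.supp (β i)) (S.supp (β j))) (F : G → ℝ) :
    ∀ (l : List κ), l.Nodup → ∀ σ, ∑ W ∈ l.toFinset.powerset, (-1 : ℝ) ^ W.card *
      F (S.pw β hβ W * σ) = altD (l.map β) F σ := by
  intro l
  induction l with
  | nil =>
    intro _ σ
    simp [altD, Pos.pw]
  | cons a l ih =>
    intro hnd σ
    rw [List.nodup_cons] at hnd
    have ha : a ∉ l.toFinset := by simpa using hnd.1
    rw [List.toFinset_cons, Finset.sum_powerset_insert ha, ih hnd.2 σ]
    have h1 : ∀ W ∈ l.toFinset.powerset, (-1 : ℝ) ^ (insert a W).card *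
        F (S.pw β hβ (insert a W) * σ) = - ((-1 : ℝ) ^ W.card * F (S.pw β hβ W * (β a * σ))) := by
      intro W hW
      have haW : a ∉ W := fun h => ha (mem_powerset.1 hW h)
      rw [card_insert_of_notMem haW]
      have h2 : S.pw β hβ (insert a W) = S.pw β hβ W * β a := by
        unfold Pos.pw
        exact Finset.noncommProd_insert_of_notMem' _ _ _ _ haW
      rw [h2, mul_assoc, pow_succ]
      ring
    rw [Finset.sum_congr rfl h1, Finset.sum_neg_distrib, ih hnd.2 (β a * σ)]
    simp only [List.map_cons, altD]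
    ring

/-- The degree hypothesis: iterated differences along more than `d` disjoint blocks vanish. -/
def Pos.DegLe (F : G → ℝ) (d : ℕ) : Prop :=
  ∀ l : List G, l.Pairwise (fun a b => Disjoint (S.supp a) (S.supp b)) → d < l.length →
    altD l F = 0

/-- The indicator function -/
def ind (f : G → Bool) : G → ℝ := fun g => if f g then 1 else 0

theorem Pos.mem_cubeLow {F : G → ℝ} {d : ℕ} (hF : S.DegLe F d) (β : κ → G)
    (hβ : Pairwise fun i j => Disjoint (S.supp (β i)) (S.supp (β j))) (σ : G) :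
    (fun W : Finset κ => F (S.pw β hβ W * σ)) ∈ cubeLow κ d := by
  refine mem_cubeLow_of_alt fun R hR => ?_
  have h1 := S.sum_alt β hβ F R.toList R.nodup_toList σ
  rw [Finset.toList_toFinset] at h1
  rw [h1]
  have h2 := hF (R.toList.map β) ?_ (by simpa using hR)
  · rw [h2]; rfl
  · rw [List.pairwise_map]
    exact R.nodup_toList.imp fun {a b} hab => hβ hab

theorem Pos.bs_le {f : G → Bool} {d : ℕ} (hF : S.DegLe (ind f) d) (β : κ → G)
    (hβ : Pairwise fun i j => Disjoint (S.supp (β i)) (S.supp (β j))) (σ : G)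
    (hs : ∀ j, f (β j * σ) ≠ f σ) : Fintype.card κ ≤ d ^ 2 := by
  have h0 := S.mem_cubeLow hF β hβ σ
  have hempty : S.pw β hβ ∅ = 1 := by simp [Pos.pw]
  have hsing : ∀ j, S.pw β hβ {j} = β j := by intro j; simp [Pos.pw]
  by_cases hσ : f σ = true
  · refine card_le_sq_of_cubeLow (h := (fun _ => (1:ℝ)) - fun W : Finset κ =>
      ind f (S.pw β hβ W * σ)) (Submodule.sub_mem _ (one_mem_cubeLow d) h0) ?_ ?_ ?_
    · intro V
      simp only [Pi.sub_apply, ind]
      split_ifs <;> norm_num
    · simp [hempty, ind, hσ]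
    · intro j
      have h1 := hs j
      rw [hσ, Ne, Bool.not_eq_true] at h1
      simp [hsing, ind, h1]
  · rw [Bool.not_eq_true] at hσ
    refine card_le_sq_of_cubeLow (h := fun W : Finset κ =>
      ind f (S.pw β hβ W * σ)) h0 ?_ ?_ ?_
    · intro V
      simp only [ind]
      split_ifs <;> norm_num
    · simp [hempty, ind, hσ]
    · intro j
      have h1 := hs j
      rw [hσ, Ne, Bool.not_eq_false] at h1
      simp [hsing, ind, h1]

/-- `β` is a minimal sensitive block of `f` at `σ` -/
def Pos.IsMinBlock (f : G → Bool) (σ β : G) : Prop :=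
  f (β * σ) ≠ f σ ∧ ∀ β', S.supp β' ⊂ S.supp β → f (β' * σ) = f σ

theorem Pos.exists_min (f : G → Bool) (σ : G) : ∀ (n : ℕ) (β : G), (S.supp β).card ≤ n →
    f (β * σ) ≠ f σ → ∃ β', S.supp β' ⊆ S.supp β ∧ S.IsMinBlock f σ β' := by
  intro n
  induction n with
  | zero =>
    intro β hβ hs
    refine ⟨β, le_rfl, hs, fun β' h => ?_⟩
    have := card_lt_card h
    omega
  | succ n ih =>
    intro β hβ hs
    by_cases h : ∀ β', S.supp β' ⊂ S.supp β → f (β' * σ) = f σ
    · exact ⟨β, le_rfl, hs, h⟩
    · push Not at h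
      obtain ⟨β', h1, h2⟩ := h
      obtain ⟨β'', h3, h4⟩ := ih β' (by have := card_lt_card h1; omega) h2
      exact ⟨β'', h3.trans h1.subset, h4⟩

theorem Pos.card_minBlock {f : G → Bool} {d : ℕ} (hF : S.DegLe (ind f) d) {σ β : G}
    (hβ : S.IsMinBlock f σ β) : (S.supp β).card ≤ 6 * d ^ 2 := by
  have hne : β ≠ 1 := by
    rintro rfl
    exact hβ.1 (by rw [one_mul])
  obtain ⟨m, _, τ, h1, h2, h3⟩ := S.red β hne
  have h4 : Fintype.card m ≤ d ^ 2 := by
    classical
    refine S.bs_le hF τ h2 (β * σ) fun j => ?_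
    rw [← mul_assoc, hβ.2 _ (h3 j)]
    exact hβ.1.symm
  omega

theorem Pos.exists_cert [Fintype G] {f : G → Bool} {d : ℕ} (hF : S.DegLe (ind f) d) (σ : G) :
    ∃ J : Finset P, J.card ≤ 6 * d ^ 4 ∧ (∀ β, Disjoint (S.supp β) J → f (β * σ) = f σ) ∧
      ∀ p ∈ J, ∃ β, p ∈ S.supp β ∧ S.IsMinBlock f σ β := by
  classical
  -- families of disjoint minimal blocks
  let 𝓕 : Finset (Finset G) := Finset.univ.filter fun A =>
    (∀ β ∈ A, S.IsMinBlock f σ β) ∧
      ∀ β ∈ A, ∀ β' ∈ A, β ≠ β' → Disjoint (S.supp β) (S.supp β')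
  have hne : 𝓕.Nonempty := ⟨∅, by simp [𝓕]⟩
  obtain ⟨A, hA, hmax⟩ := Finset.exists_max_image 𝓕 Finset.card hne
  simp only [𝓕, mem_filter, mem_univ, true_and] at hA
  obtain ⟨hA1, hA2⟩ := hA
  have hcard : A.card ≤ d ^ 2 := by
    have h1 := S.bs_le (κ := A) hF (fun β => (β : G)) (fun β β' hne => hA2 _ β.2 _ β'.2
      (fun h => hne (Subtype.ext h))) σ (fun β => (hA1 β β.2).1)
    rwa [Fintype.card_coe] at h1
  refine ⟨A.biUnion S.supp, ?_, ?_, ?_⟩
  · calc (A.biUnion S.supp).card ≤ ∑ β ∈ A, (S.supp β).card := card_biUnion_le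
      _ ≤ ∑ β ∈ A, 6 * d ^ 2 := Finset.sum_le_sum fun β hβ => S.card_minBlock hF (hA1 β hβ)
      _ = A.card * (6 * d ^ 2) := by rw [Finset.sum_const, smul_eq_mul]
      _ ≤ d ^ 2 * (6 * d ^ 2) := Nat.mul_le_mul_right _ hcard
      _ = 6 * d ^ 4 := by ring
  · intro β hβ
    by_contra hs
    obtain ⟨β', h1, h2⟩ := S.exists_min f σ _ β le_rfl hs
    have hdis : ∀ γ ∈ A, Disjoint (S.supp β') (S.supp γ) := by
      intro γ hγ
      rw [disjoint_biUnion_right] at hβ
      exact disjoint_of_subset_left h1 (hβ γ hγ)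
    have hne1 : S.supp β' ≠ ∅ := by
      intro h
      have h3 := S.eq_one _ h
      rw [h3] at h2
      exact h2.1 (by rw [one_mul])
    have hnot : β' ∉ A := by
      intro h
      have := hdis β' h
      rw [disjoint_self_iff_empty] at this
      exact hne1 this
    have hins : insert β' A ∈ 𝓕 := by
      simp only [𝓕, mem_filter, mem_univ, true_and]
      constructor
      · intro γ hγ
        rcases mem_insert.1 hγ with rfl | hγ
        · exact h2
        · exact hA1 γ hγ
      · intro γ hγ γ' hγ' hne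
        rcases mem_insert.1 hγ with rfl | hγ1 <;> rcases mem_insert.1 hγ' with rfl | hγ1'
        · exact absurd rfl hne
        · exact hdis _ hγ1'
        · exact (hdis _ hγ1).symm
        · exact hA2 _ hγ1 _ hγ1' hne
    have := hmax _ hins
    rw [card_insert_of_notMem hnot] at this
    omega
  · intro p hp
    obtain ⟨β, hβ, hp⟩ := mem_biUnion.1 hp
    exact ⟨β, hp, hA1 β hβ⟩

end blocks

end Pool.Agent.Lib_helper11.GrpRank
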