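import Mathlib

set_option autoImplicit false

/-! The class of groups in the statement. -/

namespace Pool.Agent.Lib_helper11.GrpRank

/-- The admissible factors.  Either `G` is an alternating group of some degree `n ≥ 5`
(no upper bound on `n`), or `G` is perfect and of order at most `2 ^ (A * ⌈log₂ n⌉ ^ c)` for every
`n` such that `G` has a nontrivial complex representation of dimension `n`. -/
def Admissible (A c : ℕ) (G : Type) [Group G] : Prop :=
  (∃ n : ℕ, 5 ≤ n ∧ Nonempty (G ≃* alternatingGroup (Fin n))) ∨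
  (commutator G = ⊤ ∧ ∀ (n : ℕ) (ρ : G →* Matrix (Fin n) (Fin n) ℂ), (∃ g, ρ g ≠ 1) →
    Nat.card G ≤ 2 ^ (A * (Nat.clog 2 n) ^ c))

end Pool.Agent.Lib_helper11.GrpRank
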