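import Mathlib

set_option autoImplicit false

/-! Commuting perfect subgroups double the dimension. -/

namespace Pool.Agent.Lib_helper11.GrpRank

open Module
open scoped commutatorElement

variable {G : Type*} [Group G] {V : Type*} [AddCommGroup V] [Module ℂ V]

/-- the component of `u` on which `h` acts by the `j`-th power of `ζ` -/
noncomputable def comp (A : V →ₗ[ℂ] V) (N : ℕ) (ζ : ℂ) (j : ℕ) (u : V) : V :=
  (N : ℂ)⁻¹ • ∑ k ∈ Finset.range N, (ζ⁻¹ ^ (j * k)) • (A ^ k) u

theorem comp_eig (A : V →ₗ[ℂ] V) (N : ℕ) (ζ : ℂ) (hζ : ζ ^ N = 1) (hA : A ^ N = 1)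
    (hN : 0 < N) (j : ℕ) (u : V) : A (comp A N ζ j u) = ζ ^ j • comp A N ζ j u := by
  have hζ0 : ζ ≠ 0 := by
    rintro rfl
    rw [zero_pow hN.ne'] at hζ
    exact zero_ne_one hζ
  unfold comp
  rw [map_smul, map_sum, smul_comm (ζ ^ j)]
  congr 1
  rw [Finset.smul_sum]
  have h1 : ∀ k, A ((ζ⁻¹ ^ (j * k)) • (A ^ k) u)
      = ζ ^ j • (ζ⁻¹ ^ (j * (k+1))) • (A ^ (k+1)) u := by
    intro k
    rw [map_smul, pow_succ' A k, Module.End.mul_apply, smul_smul, mul_add, mul_one, pow_add, mul_comm (ζ^j),
      mul_assoc, ← mul_pow, inv_mul_cancel₀ hζ0, one_pow, mul_one]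
  simp_rw [h1]
  have h2 := Finset.sum_range_succ (fun k => ζ ^ j • (ζ⁻¹ ^ (j * k)) • (A ^ k) u) N
  have h3 := Finset.sum_range_succ' (fun k => ζ ^ j • (ζ⁻¹ ^ (j * k)) • (A ^ k) u) N
  have h4 : (ζ⁻¹ ^ (j * N)) • (A ^ N) u = (ζ⁻¹ ^ (j * 0)) • (A ^ 0) u := by
    rw [hA, mul_zero, pow_zero, pow_zero, mul_comm, pow_mul, inv_pow, hζ, inv_one, one_pow]
  rw [h4] at h2
  rw [h2] at h3
  exact (add_right_cancel h3).symm

theorem comp_sum (A : V →ₗ[ℂ] V) (N : ℕ) (ζ : ℂ) (hζ : IsPrimitiveRoot ζ N)
    (hN : 0 < N) (u : V) : ∑ j ∈ Finset.range N, comp A N ζ j u = u := by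
  unfold comp
  rw [← Finset.smul_sum, Finset.sum_comm]
  have h1 : ∀ k ∈ Finset.range N, ∑ j ∈ Finset.range N, (ζ⁻¹ ^ (j * k)) • (A ^ k) u
      = if k = 0 then (N : ℂ) • u else 0 := by
    intro k hk
    rw [← Finset.sum_smul]
    split_ifs with h
    · subst h; simp
    · have h2 : ∑ j ∈ Finset.range N, ζ⁻¹ ^ (j * k) = 0 := by
        have h3 : ζ⁻¹ ^ k ≠ 1 := by
          rw [inv_pow]
          intro h4
          rw [inv_eq_one] at h4
          exact hζ.pow_ne_one_of_pos_of_lt h (Finset.mem_range.1 hk) h4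
        have h4 := mul_neg_geom_sum (ζ⁻¹ ^ k) N
        have h5 : (ζ⁻¹ ^ k) ^ N = 1 := by
          rw [← pow_mul, mul_comm k N, pow_mul, inv_pow, hζ.pow_eq_one, inv_one, one_pow]
        rw [h5, sub_self, mul_eq_zero] at h4
        rcases h4 with h4 | h4
        · exact absurd (sub_eq_zero.1 h4).symm h3
        · rw [← h4]
          refine Finset.sum_congr rfl fun j _ => ?_
          rw [mul_comm, pow_mul]
      rw [h2, zero_smul]
  rw [Finset.sum_congr rfl h1, Finset.sum_ite_eq' (Finset.range N) 0, if_pos (Finset.mem_range.2 hN),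
    smul_smul, inv_mul_cancel₀ (by exact_mod_cast hN.ne'), one_smul]

theorem comp_mem (A : V →ₗ[ℂ] V) (N : ℕ) (ζ : ℂ) (U : Submodule ℂ V) (hU : ∀ u ∈ U, A u ∈ U)
    (j : ℕ) {u : V} (hu : u ∈ U) : comp A N ζ j u ∈ U := by
  unfold comp
  refine U.smul_mem _ (U.sum_mem fun k hk => U.smul_mem _ ?_)
  clear hk
  induction k with
  | zero => simpa using hu
  | succ k ih => rw [pow_succ', Module.End.mul_apply]; exact hU _ ih

/-- **Key lemma.**  `l` is a list of pairs `(H, T)` where the `H` are pairwise commuting perfect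
subgroups, `T` kills the vectors fixed by `H`, and commutes with the previous subgroups.
If the product of the `T` does not vanish on the invariant space `U`,
then `dim U ≥ 2 ^ l.length`. -/
theorem two_pow_le [Finite G] (ρ : G →* (V →ₗ[ℂ] V)) :
    ∀ (l : List (Subgroup G × (V →ₗ[ℂ] V))),
      (∀ p ∈ l, ⁅p.1, p.1⁆ = p.1) →
      (∀ p ∈ l, ∀ w, (∀ h ∈ p.1, ρ h w = w) → p.2 w = 0) →
      l.Pairwise (fun p q => (∀ h ∈ p.1, ∀ h' ∈ q.1, Commute h h') ∧
        (∀ h ∈ p.1, Commute (ρ h) q.2)) →
      ∀ (U : Submodule ℂ V), FiniteDimensional ℂ U → (∀ p ∈ l, ∀ h ∈ p.1, ∀ u ∈ U, ρ h u ∈ U) →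
      ∀ u ∈ U, (l.map (·.2)).prod u ≠ 0 → 2 ^ l.length ≤ finrank ℂ U := by
  intro l
  induction l with
  | nil =>
    intro _ _ _ U hfd _ u hu hne
    simp only [List.map_nil, List.prod_nil, Module.End.one_apply] at hne
    simp only [List.length_nil, pow_zero]
    have : Nontrivial U := ⟨⟨u, hu⟩, 0, fun h => hne (by simpa using congrArg Subtype.val h)⟩
    exact Nat.one_le_iff_ne_zero.2 (finrank_pos (R := ℂ) (M := U)).ne'
  | cons p l ih =>
    intro hperf hkill hpair U hfd hinv u hu hne
    obtain ⟨H₀, T₀⟩ := p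
    rw [List.pairwise_cons] at hpair
    obtain ⟨hp0, hpl⟩ := hpair
    set T' := (l.map (·.2)).prod with hT'
    rw [List.map_cons, List.prod_cons, Module.End.mul_apply] at hne
    simp only at hne
    have hw : T' u ≠ 0 := fun h => hne (by rw [h, map_zero])
    -- `T'` commutes with the action of `H₀`
    have hcomm : ∀ h ∈ H₀, Commute (ρ h) T' := by
      intro h hh
      rw [hT']
      refine Commute.list_prod_right _ _ fun y hy => ?_
      obtain ⟨q, hq, rfl⟩ := List.mem_map.1 hy
      exact (hp0 q hq).2 h hh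
    by_cases hcase : ∃ h ∈ H₀, ∃ j < orderOf h, ∃ j' < orderOf h, j ≠ j' ∧
        T' (comp (ρ h) (orderOf h) (Complex.exp (2 * Real.pi * Complex.I / (orderOf h))) j u) ≠ 0 ∧
        T' (comp (ρ h) (orderOf h) (Complex.exp (2 * Real.pi * Complex.I / (orderOf h))) j' u) ≠ 0
    · obtain ⟨h, hh, j, hj, j', hj', hjj, h1, h2⟩ := hcase
      set N := orderOf h with hN
      have hN0 : 0 < N := orderOf_pos h
      set ζ := Complex.exp (2 * Real.pi * Complex.I / N) with hζ
      have hprim : IsPrimitiveRoot ζ N := Complex.isPrimitiveRoot_exp N hN0.ne'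
      have hAN : (ρ h) ^ N = 1 := by rw [← map_pow, hN, pow_orderOf_eq_one, map_one]
      have hUA : ∀ u ∈ U, ρ h u ∈ U := hinv (H₀, T₀) (List.mem_cons_self ..) h hh
      -- the eigenspaces
      let E : ℕ → Submodule ℂ V := fun i => U ⊓ LinearMap.ker (ρ h - (ζ ^ i) • (1 : V →ₗ[ℂ] V))
      have hEle : ∀ i, E i ≤ U := fun i => inf_le_left
      have hEmem : ∀ i, comp (ρ h) N ζ i u ∈ E i := by
        intro i
        refine ⟨comp_mem _ _ _ U hUA i hu, ?_⟩
        rw [SetLike.mem_coe, LinearMap.mem_ker, LinearMap.sub_apply, LinearMap.smul_apply,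
          Module.End.one_apply, comp_eig _ _ _ hprim.pow_eq_one hAN hN0, sub_self]
      have hEfd : ∀ i, FiniteDimensional ℂ (E i) := fun i =>
        Submodule.finiteDimensional_of_le (hEle i)
      have hEinv : ∀ i, ∀ q ∈ l, ∀ g ∈ q.1, ∀ v ∈ E i, ρ g v ∈ E i := by
        intro i q hq g hg v hv
        refine ⟨hinv q (List.mem_cons_of_mem _ hq) g hg v hv.1, ?_⟩
        have h3 : Commute h g := (hp0 q hq).1 h hh g hg
        have h4 := hv.2
        rw [SetLike.mem_coe, LinearMap.mem_ker, LinearMap.sub_apply, LinearMap.smul_apply,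
          Module.End.one_apply, sub_eq_zero] at h4 ⊢
        rw [← Module.End.mul_apply, ← map_mul, h3.eq, map_mul, Module.End.mul_apply, h4, map_smul]
      have hd : ∀ i, T' (comp (ρ h) N ζ i u) ≠ 0 → 2 ^ l.length ≤ finrank ℂ (E i) := fun i hi =>
        ih (fun q hq => hperf q (List.mem_cons_of_mem _ hq))
          (fun q hq => hkill q (List.mem_cons_of_mem _ hq)) hpl (E i) (hEfd i) (hEinv i) _
          (hEmem i) hi
      have hdisj : E j ⊓ E j' = ⊥ := by
        rw [eq_bot_iff]
        rintro v ⟨hv, hv'⟩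
        have h3 := hv.2
        have h4 := hv'.2
        rw [SetLike.mem_coe, LinearMap.mem_ker, LinearMap.sub_apply, LinearMap.smul_apply,
          Module.End.one_apply, sub_eq_zero] at h3 h4
        rw [h3] at h4
        have h5 : (ζ ^ j - ζ ^ j') • v = 0 := by rw [sub_smul, h4, sub_self]
        rw [smul_eq_zero] at h5
        rcases h5 with h5 | h5
        · exact absurd (hprim.pow_inj hj hj' (sub_eq_zero.1 h5)) hjj
        · exact h5
      have h6 := Submodule.finrank_sup_add_finrank_inf_eq (E j) (E j')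
      rw [hdisj, finrank_bot, add_zero] at h6
      have h7 : finrank ℂ (E j ⊔ E j' : Submodule ℂ V) ≤ finrank ℂ U :=
        Submodule.finrank_mono (sup_le (hEle j) (hEle j'))
      rw [List.length_cons, pow_succ, mul_two]
      exact (Nat.add_le_add (hd j h1) (hd j' h2)).trans (h6 ▸ h7)
    · exfalso
      push Not at hcase
      -- every `h ∈ H₀` acts on `T' u` by a scalar
      have hscal : ∀ h ∈ H₀, ∃ c : ℂ, ρ h (T' u) = c • T' u := by
        intro h hh
        set N := orderOf h with hN
        have hN0 : 0 < N := orderOf_pos h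
        set ζ := Complex.exp (2 * Real.pi * Complex.I / N) with hζ
        have hprim : IsPrimitiveRoot ζ N := Complex.isPrimitiveRoot_exp N hN0.ne'
        have hAN : (ρ h) ^ N = 1 := by rw [← map_pow, hN, pow_orderOf_eq_one, map_one]
        have hsum : T' u = ∑ j ∈ Finset.range N, T' (comp (ρ h) N ζ j u) := by
          rw [← map_sum, comp_sum _ _ _ hprim hN0]
        obtain ⟨j, hj, hjne⟩ : ∃ j ∈ Finset.range N, T' (comp (ρ h) N ζ j u) ≠ 0 := by
          by_contra hcon
          push Not at hcon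
          exact hw (by rw [hsum]; exact Finset.sum_eq_zero hcon)
        have h1 : T' u = T' (comp (ρ h) N ζ j u) := by
          rw [hsum]
          refine Finset.sum_eq_single_of_mem j hj fun i hi hij => ?_
          exact hcase h hh j (Finset.mem_range.1 hj) i (Finset.mem_range.1 hi) (Ne.symm hij) hjne
        refine ⟨ζ ^ j, ?_⟩
        rw [h1, ← Module.End.mul_apply, (hcomm h hh).eq, Module.End.mul_apply,
          comp_eig _ _ _ hprim.pow_eq_one hAN hN0, map_smul]
      -- so the commutators fix `T' u`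
      have hfix : ∀ h ∈ H₀, ρ h (T' u) = T' u := by
        let St : Subgroup G :=
          { carrier := {g | ρ g (T' u) = T' u}
            one_mem' := by simp
            mul_mem' := by
              intro a b ha hb
              simp only [Set.mem_ofPred_eq] at *
              rw [map_mul, Module.End.mul_apply, hb, ha]
            inv_mem' := by
              intro a ha
              simp only [Set.mem_ofPred_eq] at *
              have h1 : ρ a⁻¹ (ρ a (T' u)) = T' u := by
                rw [← Module.End.mul_apply, ← map_mul, inv_mul_cancel, map_one, Module.End.one_apply]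
              rw [ha] at h1
              exact h1 }
        have hle : ⁅H₀, H₀⁆ ≤ St := by
          rw [Subgroup.commutator_le]
          intro g₁ hg₁ g₂ hg₂
          change ρ ⁅g₁, g₂⁆ (T' u) = T' u
          obtain ⟨c, hc⟩ := hscal g₁ hg₁
          obtain ⟨c', hc'⟩ := hscal g₂ hg₂
          have h1 : ρ (g₁ * g₂) (T' u) = ρ (g₂ * g₁) (T' u) := by
            rw [map_mul, map_mul, Module.End.mul_apply, Module.End.mul_apply, hc, hc', map_smul,
              map_smul, hc, hc', smul_comm]
          have h2 : ⁅g₁, g₂⁆ * (g₂ * g₁) = g₁ * g₂ := by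
            rw [commutatorElement_def]; group
          have h3 : ρ ⁅g₁, g₂⁆ (ρ (g₂ * g₁) (T' u)) = ρ (g₂ * g₁) (T' u) := by
            rw [← Module.End.mul_apply, ← map_mul, h2, h1]
          have h4 : ρ (g₂ * g₁) (T' u) = (c' * c) • T' u := by
            rw [map_mul, Module.End.mul_apply, hc, map_smul, hc', smul_smul, mul_comm c c']
          have hcc : c' * c ≠ 0 := by
            intro h0
            have h5 : ρ (g₂ * g₁)⁻¹ (ρ (g₂ * g₁) (T' u)) = T' u := by
              rw [← Module.End.mul_apply, ← map_mul, inv_mul_cancel, map_one, Module.End.one_apply]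
            rw [h4, h0, zero_smul, map_zero] at h5
            exact hw h5.symm
          rw [h4, map_smul] at h3
          exact smul_right_injective V hcc h3
        intro h hh
        have : h ∈ ⁅H₀, H₀⁆ := by
          rw [hperf (H₀, T₀) (List.mem_cons_self ..)]; exact hh
        exact hle this
      exact hne (hkill (H₀, T₀) (List.mem_cons_self ..) (T' u) hfix)

end Pool.Agent.Lib_helper11.GrpRank
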