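import Mathlib
import Pool.Agent.Lib_helper11.GrpRank.Block
import Pool.Agent.Lib_helper11.GrpRank.Rep

set_option autoImplicit false
set_option linter.unusedSectionVars false
set_option linter.unusedVariables false

/-! Products of groups with positions, and the degree bound from the rank. -/

namespace Pool.Agent.Lib_helper11.GrpRank

open Finset Module
open scoped commutatorElement

/-- elements supported in `X` -/
def Pos.K {G : Type} [Group G] {P : Type} [DecidableEq P] (S : Pos G P) (X : Finset P) :
    Subgroup G where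
  carrier := {g | S.supp g ⊆ X}
  one_mem' := by
    change S.supp 1 ⊆ X
    rw [S.one]; exact empty_subset _
  mul_mem' := by
    intro a b ha hb
    change S.supp (a * b) ⊆ X
    exact (S.mul a b).trans (union_subset ha hb)
  inv_mem' := by
    intro a ha
    exact (S.inv a).trans ha

theorem Pos.mem_K {G : Type} [Group G] {P : Type} [DecidableEq P] (S : Pos G P) (X : Finset P)
    (g : G) : g ∈ S.K X ↔ S.supp g ⊆ X := Iff.rfl

/-- perfectness requirements for a factor -/
def Pos.Perf {G : Type} [Group G] {P : Type} [DecidableEq P] (S : Pos G P) : Prop :=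
  ⁅(⊤ : Subgroup G), (⊤ : Subgroup G)⁆ = ⊤ ∧
  ∀ a b : G, a ≠ 1 → b ≠ 1 → Disjoint (S.supp a) (S.supp b) →
    ⁅S.K (S.supp a ∪ S.supp b), S.K (S.supp a ∪ S.supp b)⁆ = S.K (S.supp a ∪ S.supp b)

section

variable {ι : Type} [Fintype ι] [DecidableEq ι] {H : ι → Type} [∀ i, Group (H i)]
  {P : ι → Type} [∀ i, DecidableEq (P i)] (S : ∀ i, Pos (H i) (P i))

/-- support in the product -/
def psupp (g : ∀ i, H i) : Finset (Σ i, P i) :=
  Finset.univ.sigma fun i => (S i).supp (g i)

theorem mem_psupp (g : ∀ i, H i) (p : Σ i, P i) : p ∈ psupp S g ↔ p.2 ∈ (S p.1).supp (g p.1) := by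
  simp [psupp]

theorem psupp_disjoint {g h : ∀ i, H i} (hd : Disjoint (psupp S g) (psupp S h)) (i : ι) :
    Disjoint ((S i).supp (g i)) ((S i).supp (h i)) := by
  rw [Finset.disjoint_left] at hd ⊢
  intro p hp hp'
  exact hd (a := ⟨i, p⟩) ((mem_psupp S g ⟨i, p⟩).2 hp) ((mem_psupp S h ⟨i, p⟩).2 hp')

/-- The product system. -/
def prodPos : Pos (∀ i, H i) (Σ i, P i) where
  supp := psupp S
  one := by
    ext p
    rw [mem_psupp]
    simp [(S p.1).one]
  eq_one := by
    intro g hg
    funext i
    refine (S i).eq_one _ ?_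
    rw [Finset.eq_empty_iff_forall_notMem]
    intro p hp
    have : (⟨i, p⟩ : Σ i, P i) ∈ psupp S g := (mem_psupp S g ⟨i, p⟩).2 hp
    rw [hg] at this
    exact notMem_empty _ this
  inv := by
    intro g p hp
    rw [mem_psupp] at hp ⊢
    exact (S p.1).inv _ hp
  mul := by
    intro g h p hp
    rw [mem_psupp] at hp
    rw [mem_union, mem_psupp, mem_psupp]
    exact mem_union.1 ((S p.1).mul _ _ hp)
  comm := by
    intro g h hd
    funext i
    exact (S i).comm _ _ (psupp_disjoint S hd i)
  red := by
    classical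
    intro g hg
    have h1 : ∀ i, ∃ (m : Type) (_ : Fintype m) (τ : m → H i),
        ((S i).supp (g i)).card ≤ 6 * Fintype.card m ∧
        (Pairwise fun k l => Disjoint ((S i).supp (τ k)) ((S i).supp (τ l))) ∧
        ∀ k, (S i).supp (τ k * g i) ⊂ (S i).supp (g i) := by
      intro i
      by_cases h : g i = 1
      · refine ⟨Empty, inferInstance, fun e => e.elim, ?_, fun e => e.elim, fun e => e.elim⟩
        rw [h, (S i).one]; simp
      · exact (S i).red (g i) h
    choose m fm τ h2 h3 h4 using h1
    refine ⟨Σ i, m i, inferInstance, fun k => Pi.mulSingle k.1 (τ k.1 k.2), ?_, ?_, ?_⟩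
    · rw [psupp, card_sigma, Fintype.card_sigma, Finset.mul_sum]
      exact Finset.sum_le_sum fun i _ => h2 i
    · rintro ⟨i, k⟩ ⟨j, l⟩ hne
      rw [Finset.disjoint_left]
      intro p hp hp'
      rw [mem_psupp] at hp hp'
      simp only at hp hp'
      by_cases hi : p.1 = i
      · by_cases hj : p.1 = j
        · subst hi
          subst hj
          rw [Pi.mulSingle_eq_same] at hp hp'
          have hkl : k ≠ l := fun h => hne (by rw [h])
          exact (Finset.disjoint_left.1 (h3 _ hkl)) hp hp'
        · rw [Pi.mulSingle_eq_of_ne hj, (S p.1).one] at hp'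
          exact notMem_empty _ hp'
      · rw [Pi.mulSingle_eq_of_ne hi, (S p.1).one] at hp
        exact notMem_empty _ hp
    · rintro ⟨i, k⟩
      have h5 := h4 i k
      rw [ssubset_iff_subset_ne] at h5 ⊢
      constructor
      · intro p hp
        rw [mem_psupp] at hp ⊢
        by_cases hi : p.1 = i
        · subst hi
          simp only [Pi.mul_apply, Pi.mulSingle_eq_same] at hp
          exact h5.1 hp
        · simpa only [Pi.mul_apply, Pi.mulSingle_eq_of_ne hi, one_mul] using hp
      · intro heq
        apply h5.2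
        ext p
        have h6 : (⟨i, p⟩ : Σ i, P i) ∈ psupp S (Pi.mulSingle i (τ i k) * g) ↔
            (⟨i, p⟩ : Σ i, P i) ∈ psupp S g := by rw [heq]
        rw [mem_psupp, mem_psupp] at h6
        simpa only [Pi.mul_apply, Pi.mulSingle_eq_same] using h6

theorem psupp_single (i : ι) (h : H i) :
    psupp S (Pi.mulSingle i h) = ((S i).supp h).map ⟨Sigma.mk i, sigma_mk_injective⟩ := by
  ext p
  rw [mem_psupp, mem_map]
  constructor
  · intro hp
    by_cases hi : p.1 = i
    · subst hi
      rw [Pi.mulSingle_eq_same] at hp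
      exact ⟨p.2, hp, rfl⟩
    · rw [Pi.mulSingle_eq_of_ne hi, (S p.1).one] at hp
      exact absurd hp (notMem_empty _)
  · rintro ⟨q, hq, rfl⟩
    simpa using hq

theorem psupp_single_subset (g : ∀ i, H i) (i : ι) :
    psupp S (Pi.mulSingle i (g i)) ⊆ psupp S g := by
  intro p hp
  rw [psupp_single, mem_map] at hp
  obtain ⟨q, hq, rfl⟩ := hp
  rw [mem_psupp]
  exact hq

end

end Pool.Agent.Lib_helper11.GrpRank
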