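import Mathlib
import Pool.Agent.Lib_helper11.GrpRank.Prod

set_option autoImplicit false
set_option linter.unusedSectionVars false
set_option linter.unusedVariables false

/-! The rank bounds the degree. -/

namespace Pool.Agent.Lib_helper11.GrpRank

open Finset Module
open scoped commutatorElement

/-- left translation of functions -/
noncomputable def lreg (G : Type) [Group G] : G →* ((G → ℂ) →ₗ[ℂ] (G → ℂ)) where
  toFun g :=
    { toFun := fun v σ => v (g⁻¹ * σ)
      map_add' := fun _ _ => rfl
      map_smul' := fun _ _ => rfl }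
  map_one' := by
    ext v σ
    simp
  map_mul' := by
    intro a b
    ext v σ
    simp [mul_assoc]

theorem lreg_apply {G : Type} [Group G] (g : G) (v : G → ℂ) (σ : G) :
    lreg G g v σ = v (g⁻¹ * σ) := rfl

/-- the difference operator -/
noncomputable def Top {G : Type} [Group G] (β : G) : (G → ℂ) →ₗ[ℂ] (G → ℂ) := 1 - lreg G β⁻¹

theorem Top_apply {G : Type} [Group G] (β : G) (v : G → ℂ) : Top β v = v - lreg G β⁻¹ v := rfl

theorem Top_eq_zero_iff {G : Type} [Group G] (β : G) (v : G → ℂ) :
    Top β v = 0 ↔ lreg G β v = v := by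
  rw [Top_apply, sub_eq_zero]
  constructor
  · intro h
    conv_lhs => rw [h]
    rw [← Module.End.mul_apply, ← map_mul, mul_inv_cancel, map_one, Module.End.one_apply]
  · intro h
    conv_rhs => rw [← h]
    rw [← Module.End.mul_apply, ← map_mul, inv_mul_cancel, map_one, Module.End.one_apply]

theorem Top_one {G : Type} [Group G] (v : G → ℂ) : Top (1 : G) v = 0 := by
  rw [Top_eq_zero_iff, map_one, Module.End.one_apply]

theorem altD_eq {G : Type} [Group G] (F : G → ℝ) (l : List G) :
    ∀ σ, ((altD l F σ : ℝ) : ℂ) = (l.map Top).prod (fun g => (F g : ℂ)) σ := by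
  induction l with
  | nil => intro σ; simp [altD]
  | cons β l ih =>
    intro σ
    rw [List.map_cons, List.prod_cons, Module.End.mul_apply, Top_apply]
    simp only [altD, Pi.sub_apply, lreg_apply, inv_inv]
    push_cast
    rw [ih, ih]

theorem Top_comm {G : Type} [Group G] {a b : G} (h : Commute a b) :
    Commute (lreg G a) (Top b) := by
  unfold Top
  refine (Commute.one_right _).sub_right ?_
  exact (h.inv_right).map (lreg G)

theorem Top_comm' {G : Type} [Group G] {a b : G} (h : Commute a b) :
    Commute (Top a) (Top b) := by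
  unfold Top
  refine (Commute.one_left _).sub_left ?_
  exact (Commute.one_right _).sub_right ((h.inv_inv).map (lreg G))

section

variable {ι : Type} [Fintype ι] [DecidableEq ι] {H : ι → Type} [∀ i, Group (H i)]
  [∀ i, Finite (H i)]
  {P : ι → Type} [∀ i, DecidableEq (P i)] (S : ∀ i, Pos (H i) (P i))

/-- the element of the product defined by an element of a factor -/
def sg (s : Σ i, H i) : ∀ i, H i := Pi.mulSingle s.1 s.2

theorem exists_factor {β : ∀ i, H i} {v : (∀ i, H i) → ℂ} (h : Top β v ≠ 0) :
    ∃ i, Top (Pi.mulSingle i (β i)) v ≠ 0 := by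
  by_contra hcon
  push Not at hcon
  apply h
  rw [Top_eq_zero_iff]
  let St : Subgroup (∀ i, H i) :=
    { carrier := {g | lreg _ g v = v}
      one_mem' := by
        change lreg _ 1 v = v
        rw [map_one, Module.End.one_apply]
      mul_mem' := by
        intro a b ha hb
        change lreg _ (a * b) v = v
        change lreg _ a v = v at ha
        change lreg _ b v = v at hb
        rw [map_mul, Module.End.mul_apply, hb, ha]
      inv_mem' := by
        intro a ha
        change lreg _ a v = v at ha
        change lreg _ a⁻¹ v = v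
        have h1 : lreg _ a⁻¹ (lreg _ a v) = v := by
          rw [← Module.End.mul_apply, ← map_mul, inv_mul_cancel, map_one, Module.End.one_apply]
        rw [ha] at h1
        exact h1 }
  have : β ∈ St := Subgroup.pi_mem_of_mulSingle_mem β fun i => (Top_eq_zero_iff _ _).1 (hcon i)
  exact this

/-- Telescoping: blocks can be replaced by blocks in one factor. -/
theorem telescope (l : List (∀ i, H i)) :
    l.Pairwise (fun a b => Disjoint (psupp S a) (psupp S b)) →
    ∀ v : (∀ i, H i) → ℂ, (l.map Top).prod v ≠ 0 →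
    ∃ l' : List (Σ i, H i), l'.length = l.length ∧ (∀ s ∈ l', s.2 ≠ 1) ∧
      (∀ s ∈ l', ∃ β ∈ l, psupp S (sg s) ⊆ psupp S β) ∧
      l'.Pairwise (fun a b => Disjoint (psupp S (sg a)) (psupp S (sg b))) ∧
      ((l'.map sg).map Top).prod v ≠ 0 := by
  induction l with
  | nil =>
    intro _ v hv
    exact ⟨[], rfl, by simp, by simp, List.Pairwise.nil, by simpa using hv⟩
  | cons β l ih =>
    intro hpair v hv
    rw [List.pairwise_cons] at hpair
    obtain ⟨hβ, hl⟩ := hpair
    rw [List.map_cons, List.prod_cons, Module.End.mul_apply] at hv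
    obtain ⟨i, hi⟩ := exists_factor hv
    set s : Σ i, H i := ⟨i, β i⟩ with hs
    have hsg : sg s = Pi.mulSingle i (β i) := rfl
    have hsub : psupp S (sg s) ⊆ psupp S β := by rw [hsg]; exact psupp_single_subset S β i
    have hcomm : ∀ γ, Disjoint (psupp S β) (psupp S γ) → Commute (Top (sg s)) (Top γ) :=
      fun γ hγ => Top_comm' ((prodPos S).comm _ _ (disjoint_of_subset_left hsub hγ))
    have h1 : Commute (Top (sg s)) (l.map Top).prod :=
      Commute.list_prod_right _ _ fun y hy => by
        obtain ⟨γ, hγ, rfl⟩ := List.mem_map.1 hy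
        exact hcomm γ (hβ γ hγ)
    rw [← hsg, ← Module.End.mul_apply, h1.eq, Module.End.mul_apply] at hi
    obtain ⟨l', h2, h3, h4, h5, h6⟩ := ih hl _ hi
    refine ⟨s :: l', by simp [h2], ?_, ?_, ?_, ?_⟩
    · intro t ht
      rcases List.mem_cons.1 ht with rfl | ht
      · intro h7
        have h8 : β i = 1 := h7
        apply hi
        have h9 : sg s = 1 := by rw [hsg, h8, Pi.mulSingle_one]
        rw [h9, Top_one, map_zero]
      · exact h3 t ht
    · intro t ht
      rcases List.mem_cons.1 ht with rfl | ht
      · exact ⟨β, List.mem_cons_self .., hsub⟩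
      · obtain ⟨γ, hγ, h7⟩ := h4 t ht
        exact ⟨γ, List.mem_cons_of_mem _ hγ, h7⟩
    · rw [List.pairwise_cons]
      refine ⟨fun t ht => ?_, h5⟩
      obtain ⟨γ, hγ, h7⟩ := h4 t ht
      exact disjoint_of_subset_left hsub (disjoint_of_subset_right h7 (hβ γ hγ))
    · have h7 : Commute (Top (sg s)) ((l'.map sg).map Top).prod :=
        Commute.list_prod_right _ _ fun y hy => by
          obtain ⟨γ, hγ, rfl⟩ := List.mem_map.1 hy
          obtain ⟨t, ht, rfl⟩ := List.mem_map.1 hγ
          obtain ⟨δ, hδ, h8⟩ := h4 t ht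
          exact hcomm _ (disjoint_of_subset_right h8 (hβ δ hδ))
      rw [List.map_cons, List.map_cons, List.prod_cons, h7.eq, Module.End.mul_apply]
      exact h6

/-- the two blocks of a pair -/
def two (p : Σ i, H i × H i) : List (Σ i, H i) := [⟨p.1, p.2.1⟩, ⟨p.1, p.2.2⟩]

/-- Pairing up blocks in the same factor. -/
theorem pairing (l : List (Σ i, H i)) : ∃ (pl : List (Σ i, H i × H i)) (ul : List (Σ i, H i)),
    l.Perm (pl.flatMap two ++ ul) ∧ ul.Pairwise (fun s t => s.1 ≠ t.1) := by
  induction l with
  | nil => exact ⟨[], [], by simp, List.Pairwise.nil⟩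
  | cons a l ih =>
    obtain ⟨pl, ul, h1, h2⟩ := ih
    by_cases hex : ∃ t ∈ ul, t.1 = a.1
    · obtain ⟨⟨j, b⟩, ht, hta⟩ := hex
      obtain ⟨i, a⟩ := a
      simp only at hta
      subst hta
      obtain ⟨u1, u2, rfl⟩ := List.append_of_mem ht
      refine ⟨⟨j, (a, b)⟩ :: pl, u1 ++ u2, ?_, ?_⟩
      · have h3 : (u1 ++ ⟨j, b⟩ :: u2).Perm (⟨j, b⟩ :: (u1 ++ u2)) := List.perm_middle
        have h4 : (List.flatMap two pl ++ (u1 ++ ⟨j, b⟩ :: u2)).Perm
            (⟨j, b⟩ :: (List.flatMap two pl ++ (u1 ++ u2))) :=
          (List.Perm.append_left _ h3).trans List.perm_middle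
        rw [List.flatMap_cons]
        exact List.Perm.cons _ (h1.trans h4)
      · rw [List.pairwise_append] at h2 ⊢
        refine ⟨h2.1, (List.pairwise_cons.1 h2.2.1).2, fun x hx y hy =>
          h2.2.2 x hx y (List.mem_cons_of_mem _ hy)⟩
    · push Not at hex
      refine ⟨pl, a :: ul, ?_, ?_⟩
      · exact (List.Perm.cons a h1).trans List.perm_middle.symm
      · rw [List.pairwise_cons]
        exact ⟨fun t ht => (hex t ht).symm, h2⟩

theorem length_two (pl : List (Σ i, H i × H i)) : (pl.flatMap two).length = 2 * pl.length := by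
  induction pl with
  | nil => rfl
  | cons p pl ih => rw [List.flatMap_cons, List.length_append, ih]; simp [two]; ring

/-- the operator of a list of pairs -/
theorem prod_two (pl : List (Σ i, H i × H i)) :
    (((pl.flatMap two).map sg).map Top).prod =
      (pl.map fun p => Top (Pi.mulSingle p.1 p.2.1 : ∀ i, H i) * Top (Pi.mulSingle p.1 p.2.2)).prod := by
  induction pl with
  | nil => rfl
  | cons p pl ih =>
    rw [List.flatMap_cons, List.map_append, List.map_append, List.prod_append, ih, List.map_cons,
      List.prod_cons]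
    rfl

theorem map_perfect (i : ι) (K : Subgroup (H i)) (hK : ⁅K, K⁆ = K) :
    ⁅K.map (MonoidHom.mulSingle H i), K.map (MonoidHom.mulSingle H i)⁆ =
      K.map (MonoidHom.mulSingle H i) := by
  rw [← Subgroup.map_commutator, hK]

/-- **Degree bound.** -/
theorem degLe (hS : ∀ i, (S i).Perf) (F : (∀ i, H i) → ℝ)
    (U : Submodule ℂ ((∀ i, H i) → ℂ)) (hfd : FiniteDimensional ℂ U)
    (hU : ∀ g, ∀ u ∈ U, lreg _ g u ∈ U) (hF : (fun g => (F g : ℂ)) ∈ U) (k : ℕ)
    (hk : finrank ℂ U < 2 ^ (k + 1)) : (prodPos S).DegLe F (3 * k) := by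
  intro l hpair hlen
  by_contra hne
  have hcommS : ∀ a b : (∀ i, H i), Disjoint (psupp S a) (psupp S b) → Commute a b :=
    (prodPos S).comm
  have h1 : (l.map Top).prod (fun g => (F g : ℂ)) ≠ 0 := by
    intro h
    apply hne
    funext σ
    have h2 := altD_eq F l σ
    rw [h] at h2
    simpa using h2
  have hUT : ∀ β : (∀ i, H i), ∀ u ∈ U, Top β u ∈ U := by
    intro β u hu
    rw [Top_apply]
    exact U.sub_mem hu (hU _ u hu)
  obtain ⟨l', h2, h3, h4, h5, h6⟩ := telescope S l hpair _ h1
  obtain ⟨pl, ul, h7, h8⟩ := pairing l'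
  -- the permuted list
  have h9 : (pl.flatMap two ++ ul).Pairwise
      (fun a b => Disjoint (psupp S (sg a)) (psupp S (sg b))) :=
    h7.pairwise h5 fun {a b} h => h.symm
  have h10 : ((l'.map sg).map Top).prod =
      (((pl.flatMap two ++ ul).map sg).map Top).prod := by
    refine ((h7.map sg).map Top).prod_eq' ?_
    rw [List.pairwise_map, List.pairwise_map]
    exact h5.imp fun {a b} h => Top_comm' (hcommS _ _ h)
  rw [h10, List.map_append, List.map_append, List.prod_append, Module.End.mul_apply, prod_two]
    at h6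
  rw [List.pairwise_append] at h9
  obtain ⟨h91, h92, h93⟩ := h9
  have hlen2 : l.length = 2 * pl.length + ul.length := by
    rw [← h2, h7.length_eq, List.length_append, length_two]
  set w := ((ul.map sg).map Top).prod (fun g => (F g : ℂ)) with hw
  have hwU : w ∈ U := by
    have : ∀ (m : List (∀ i, H i)), (m.map Top).prod (fun g => (F g : ℂ)) ∈ U := by
      intro m
      induction m with
      | nil => simpa using hF
      | cons β m ih =>
        rw [List.map_cons, List.prod_cons, Module.End.mul_apply]
        exact hUT β _ ih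
    exact this _
  have hne1 : ∀ s ∈ pl.flatMap two ++ ul, s.2 ≠ 1 := fun s hs => h3 s (h7.mem_iff.2 hs)
  by_cases hcase : k + 1 ≤ pl.length
  · -- many pairs
    have key := two_pow_le (lreg (∀ i, H i))
      (pl.map fun p => (((S p.1).K ((S p.1).supp p.2.1 ∪ (S p.1).supp p.2.2)).map
        (MonoidHom.mulSingle H p.1), Top (Pi.mulSingle p.1 p.2.1 : ∀ i, H i) *
          Top (Pi.mulSingle p.1 p.2.2))) ?_ ?_ ?_ U hfd ?_ w hwU ?_
    · rw [List.length_map] at key
      have := Nat.pow_le_pow_right (n := 2) (by norm_num) hcase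
      omega
    · -- perfect
      intro q hq
      obtain ⟨p, hp, rfl⟩ := List.mem_map.1 hq
      obtain ⟨i, a, b⟩ := p
      have ha : (⟨i, a⟩ : Σ i, H i) ∈ pl.flatMap two :=
        List.mem_flatMap.2 ⟨_, hp, by simp [two]⟩
      have hb : (⟨i, b⟩ : Σ i, H i) ∈ pl.flatMap two :=
        List.mem_flatMap.2 ⟨_, hp, by simp [two]⟩
      refine map_perfect i _ ((hS i).2 a b ?_ ?_ ?_)
      · exact hne1 _ (List.mem_append_left _ ha)
      · exact hne1 _ (List.mem_append_left _ hb)
      · have h11 : ([⟨i, a⟩, ⟨i, b⟩] : List (Σ i, H i)).Sublist (pl.flatMap two) := by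
          have : (two (⟨i, (a, b)⟩ : Σ i, H i × H i)).Sublist (pl.flatMap two) := by
            obtain ⟨p1, p2, rfl⟩ := List.append_of_mem hp
            rw [List.flatMap_append, List.flatMap_cons]
            exact (List.sublist_append_left _ _).trans (List.sublist_append_right _ _)
          exact this
        have h12 := h91.sublist h11
        have h13 := (List.pairwise_cons.1 h12).1 ⟨i, b⟩ (by simp)
        have h14 := psupp_disjoint S h13 i
        simpa [sg] using h14
    · -- kill
      intro q hq v hv
      obtain ⟨p, hp, rfl⟩ := List.mem_map.1 hq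
      obtain ⟨i, a, b⟩ := p
      simp only at hv ⊢
      rw [Module.End.mul_apply]
      have h11 : Top (Pi.mulSingle i b : ∀ i, H i) v = 0 := by
        rw [Top_eq_zero_iff]
        exact hv _ ⟨b, by rw [SetLike.mem_coe, Pos.mem_K]; exact subset_union_right, rfl⟩
      rw [h11, map_zero]
    · -- commutation
      rw [List.pairwise_map]
      have h11 : ∀ pl : List (Σ i, H i × H i), (pl.flatMap two).Pairwise
          (fun a b => Disjoint (psupp S (sg a)) (psupp S (sg b))) →
          pl.Pairwise (fun p q => ∀ a ∈ two p, ∀ b ∈ two q,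
            Disjoint (psupp S (sg a)) (psupp S (sg b))) := by
        intro pl
        induction pl with
        | nil => intro _; exact List.Pairwise.nil
        | cons p pl ih =>
          intro h
          rw [List.flatMap_cons, List.pairwise_append] at h
          rw [List.pairwise_cons]
          refine ⟨fun q hq a ha b hb => h.2.2 a ha b (List.mem_flatMap.2 ⟨q, hq, hb⟩), ih h.2.1⟩
      refine (h11 pl h91).imp ?_
      rintro ⟨i, a, b⟩ ⟨j, c, d⟩ hdis
      have hdis' : ∀ x ∈ (S i).K ((S i).supp a ∪ (S i).supp b),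
          Disjoint (psupp S (Pi.mulSingle i x)) (psupp S (Pi.mulSingle j c)) ∧
          Disjoint (psupp S (Pi.mulSingle i x)) (psupp S (Pi.mulSingle j d)) := by
        intro x hx
        have hx' : psupp S (Pi.mulSingle i x) ⊆
            psupp S (sg ⟨i, a⟩) ∪ psupp S (sg ⟨i, b⟩) := by
          simp only [sg]
          rw [psupp_single, psupp_single, psupp_single, ← map_union]
          exact map_subset_map.2 hx
        constructor
        · refine disjoint_of_subset_left hx' (disjoint_union_left.2 ⟨?_, ?_⟩)
          · exact hdis _ (by simp [two]) ⟨j, c⟩ (by simp [two])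
          · exact hdis _ (by simp [two]) ⟨j, c⟩ (by simp [two])
        · refine disjoint_of_subset_left hx' (disjoint_union_left.2 ⟨?_, ?_⟩)
          · exact hdis _ (by simp [two]) ⟨j, d⟩ (by simp [two])
          · exact hdis _ (by simp [two]) ⟨j, d⟩ (by simp [two])
      constructor
      · rintro _ ⟨x, hx, rfl⟩ _ ⟨y, hy, rfl⟩
        simp only [SetLike.mem_coe] at hx hy
        apply hcommS
        have hy' : psupp S (Pi.mulSingle j y) ⊆
            psupp S (Pi.mulSingle j c) ∪ psupp S (Pi.mulSingle j d) := by
          rw [psupp_single, psupp_single, psupp_single, ← map_union]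
          exact map_subset_map.2 hy
        exact disjoint_of_subset_right hy' (disjoint_union_right.2 (hdis' x hx))
      · rintro _ ⟨x, hx, rfl⟩
        simp only [SetLike.mem_coe] at hx
        exact (Top_comm (hcommS _ _ (hdis' x hx).1)).mul_right
          (Top_comm (hcommS _ _ (hdis' x hx).2))
    · intro q hq h hh u hu
      exact hU h u hu
    · rw [List.map_map]
      exact h6
  · -- many factors
    have hul : k + 1 ≤ ul.length := by omega
    have hw0 : w ≠ 0 := fun h => h6 (by rw [h, map_zero])
    have key := two_pow_le (lreg (∀ i, H i))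
      (ul.map fun s => ((⊤ : Subgroup (H s.1)).map (MonoidHom.mulSingle H s.1), Top (sg s)))
      ?_ ?_ ?_ U hfd ?_ _ hF ?_
    · rw [List.length_map] at key
      have := Nat.pow_le_pow_right (n := 2) (by norm_num) hul
      omega
    · intro q hq
      obtain ⟨s, hs, rfl⟩ := List.mem_map.1 hq
      exact map_perfect s.1 _ (hS s.1).1
    · intro q hq v hv
      obtain ⟨s, hs, rfl⟩ := List.mem_map.1 hq
      simp only at hv ⊢
      rw [Top_eq_zero_iff]
      exact hv _ ⟨s.2, Subgroup.mem_top _, rfl⟩
    · rw [List.pairwise_map]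
      refine h8.imp ?_
      rintro ⟨i, a⟩ ⟨j, b⟩ hij
      simp only at hij ⊢
      constructor
      · rintro _ ⟨x, _, rfl⟩ _ ⟨y, _, rfl⟩
        exact Pi.mulSingle_commute hij x y
      · rintro _ ⟨x, _, rfl⟩
        exact Top_comm (Pi.mulSingle_commute hij x b)
    · intro q hq h hh u hu
      exact hU h u hu
    · rw [List.map_map]
      rw [List.map_map] at hw
      rw [hw] at hw0
      exact hw0

end

end Pool.Agent.Lib_helper11.GrpRank
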