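import Mathlib
import Pool.Agent.Lib_helper10.LogRank.Proto

set_option autoImplicit false

/-! A protocol for `f((a x)⁻¹ (b y))` from certificates. -/

namespace Pool.Agent.Lib_helper11.GrpRank

open Finset Pool.Agent.Lib_helper10.LogRank

variable {X Y : Type} {G : Type} [Group G]

/-- The players can find out the value of `v ((a x)⁻¹ * b y)` with `ℓ` bits of communication. -/
def Reveal (a : X → G) (b : Y → G) {A : Type} (v : G → A) (ℓ : ℕ) : Prop :=
  ∀ (R : X → Y → Prop) (F : X → Y → Bool) (c : ℕ),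
    (∀ t : A, CCOn (fun x y => R x y ∧ v ((a x)⁻¹ * b y) = t) F c) → CCOn R F (c + ℓ)

theorem Reveal.mono {a : X → G} {b : Y → G} {A : Type} {v : G → A} {ℓ ℓ' : ℕ}
    (h : Reveal a b v ℓ) (hℓ : ℓ ≤ ℓ') : Reveal a b v ℓ' := fun R F c hc =>
  (h R F c hc).mono (fun _ _ h => h) (by omega)

variable {Q : Type} [DecidableEq Q] {A : Q → Type}

theorem reveal_finset (a : X → G) (b : Y → G) (ans : ∀ q : Q, G → A q) (ℓ : ℕ) (T : Finset Q)
    (hT : ∀ q ∈ T, Reveal a b (ans q) ℓ) : ∀ (R : X → Y → Prop) (F : X → Y → Bool) (c : ℕ),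
    (∀ σ : G, CCOn (fun x y => R x y ∧ ∀ q ∈ T, ans q ((a x)⁻¹ * b y) = ans q σ) F c) →
      CCOn R F (c + T.card * ℓ) := by
  classical
  induction T using Finset.induction_on with
  | empty =>
    intro R F c h
    refine (h 1).mono (fun x y hxy => ⟨hxy, fun q hq => absurd hq (notMem_empty q)⟩) (by simp)
  | insert q T hq ih =>
    intro R F c h
    rw [card_insert_of_notMem hq, add_mul, one_mul, ← add_assoc]
    refine hT q (mem_insert_self q T) R F _ fun t => ?_
    refine ih (fun q' hq' => hT q' (mem_insert_of_mem hq')) _ F c fun σ => ?_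
    by_cases hex : ∃ σ' : G, ans q σ' = t ∧ ∀ q' ∈ T, ans q' σ' = ans q' σ
    · obtain ⟨σ', h1, h2⟩ := hex
      refine (h σ').mono (fun x y hxy => ⟨hxy.1.1, fun q' hq' => ?_⟩) le_rfl
      rcases mem_insert.1 hq' with rfl | hq'
      · rw [hxy.1.2, h1]
      · rw [hxy.2 q' hq', h2 q' hq']
    · refine ⟨Protocol.leaf true, Nat.zero_le _, fun x y hxy => absurd ?_ hex⟩
      exact ⟨_, hxy.1.2, fun q' hq' => hxy.2 q' hq'⟩

theorem ccOn_of_cert_aux (a : X → G) (b : Y → G) (ans : ∀ q : Q, G → A q) (f : G → Bool)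
    (c : G → Finset Q) (C ℓ : ℕ) (hC : ∀ σ, (c σ).card ≤ C)
    (hconf : ∀ σ σ', f σ ≠ f σ' → ∃ q ∈ c σ, q ∈ c σ' ∧ ans q σ ≠ ans q σ')
    (hrev : ∀ σ, ∀ q ∈ c σ, Reveal a b (ans q) ℓ) (k : ℕ) :
    ∀ (S : Finset Q) (σ₀ : G),
      (∀ τ, f τ = false → (∀ q ∈ S, ans q τ = ans q σ₀) → (c τ \ S).card ≤ k) →
      CCOn (fun x y => ∀ q ∈ S, ans q ((a x)⁻¹ * b y) = ans q σ₀)
        (fun x y => f ((a x)⁻¹ * b y)) (k * (C * ℓ)) := by
  classical
  induction k with
  | zero =>
    intro S σ₀ hS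
    by_cases hex : ∃ τ, f τ = true ∧ ∀ q ∈ S, ans q τ = ans q σ₀
    · obtain ⟨τ, h1, h2⟩ := hex
      refine ⟨Protocol.leaf true, by simp [Protocol.cost], fun x y hxy => ?_⟩
      simp only [Protocol.eval]
      by_contra hne
      have h3 : f ((a x)⁻¹ * b y) = false := by
        cases hf : f ((a x)⁻¹ * b y) with
        | false => rfl
        | true => exact absurd hf.symm hne
      have h4 := hS _ h3 hxy
      obtain ⟨q, hq1, hq2, hq3⟩ := hconf ((a x)⁻¹ * b y) τ (by rw [h3, h1]; simp)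
      have h5 : q ∈ S := by
        by_contra hqS
        have : q ∈ c ((a x)⁻¹ * b y) \ S := mem_sdiff.2 ⟨hq1, hqS⟩
        have h6 := card_pos.2 ⟨q, this⟩
        omega
      exact hq3 (by rw [hxy q h5, h2 q h5])
    · refine ⟨Protocol.leaf false, by simp [Protocol.cost], fun x y hxy => ?_⟩
      simp only [Protocol.eval]
      by_contra hne
      refine hex ⟨_, ?_, hxy⟩
      cases hf : f ((a x)⁻¹ * b y) with
      | false => exact absurd hf.symm hne
      | true => rfl
  | succ k ih =>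
    intro S σ₀ hS
    by_cases hex : ∃ τ, f τ = true ∧ ∀ q ∈ S, ans q τ = ans q σ₀
    · obtain ⟨τ, h1, h2⟩ := hex
      rw [add_mul, one_mul]
      have h3 := reveal_finset a b ans ℓ (c τ) (hrev τ)
        (fun x y => ∀ q ∈ S, ans q ((a x)⁻¹ * b y) = ans q σ₀) (fun x y => f ((a x)⁻¹ * b y))
        (k * (C * ℓ)) fun σ => ?_
      · refine h3.mono (fun _ _ h => h) ?_
        have := Nat.mul_le_mul_right ℓ (hC τ)
        omega
      · by_cases hcons : ∀ q ∈ S, q ∈ c τ → ans q σ = ans q σ₀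
        · -- a common element
          by_cases hex2 : ∃ σ₁ : G, (∀ q ∈ S, ans q σ₁ = ans q σ₀) ∧
              ∀ q ∈ c τ, ans q σ₁ = ans q σ
          · obtain ⟨σ₁, h4, h5⟩ := hex2
            refine (ih (S ∪ c τ) σ₁ ?_).mono (fun x y hxy q hq => ?_) le_rfl
            · intro τ' hτ' hcons'
              have h6 : ∀ q ∈ S, ans q τ' = ans q σ₀ := fun q hq => by
                rw [hcons' q (mem_union_left _ hq), h4 q hq]
              have h7 := hS τ' hτ' h6
              obtain ⟨q, hq1, hq2, hq3⟩ := hconf τ' τ (by rw [hτ', h1]; simp)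
              have hqS : q ∉ S := fun hq => hq3 (by rw [h6 q hq, h2 q hq])
              have hlt : (c τ' \ (S ∪ c τ)).card < (c τ' \ S).card := by
                refine card_lt_card ⟨sdiff_subset_sdiff le_rfl subset_union_left, fun hsub => ?_⟩
                have := hsub (mem_sdiff.2 ⟨hq1, hqS⟩)
                exact (mem_sdiff.1 this).2 (mem_union_right _ hq2)
              omega
            · rcases mem_union.1 hq with hq | hq
              · rw [hxy.1 q hq, h4 q hq]
              · rw [hxy.2 q hq, h5 q hq]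
          · refine ⟨Protocol.leaf true, Nat.zero_le _, fun x y hxy => absurd ?_ hex2⟩
            exact ⟨_, hxy.1, hxy.2⟩
        · refine ⟨Protocol.leaf true, Nat.zero_le _, fun x y hxy => absurd ?_ hcons⟩
          intro q hq hq'
          rw [← hxy.2 q hq', hxy.1 q hq]
    · refine ⟨Protocol.leaf false, by simp [Protocol.cost], fun x y hxy => ?_⟩
      simp only [Protocol.eval]
      by_contra hne
      refine hex ⟨_, ?_, hxy⟩
      cases hf : f ((a x)⁻¹ * b y) with
      | false => exact absurd hf.symm hne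
      | true => rfl

/-- Certificates give a protocol. -/
theorem ccOn_of_cert (a : X → G) (b : Y → G) (ans : ∀ q : Q, G → A q) (f : G → Bool)
    (c : G → Finset Q) (C ℓ : ℕ) (hC : ∀ σ, (c σ).card ≤ C)
    (hconf : ∀ σ σ', f σ ≠ f σ' → ∃ q ∈ c σ, q ∈ c σ' ∧ ans q σ ≠ ans q σ')
    (hrev : ∀ σ, ∀ q ∈ c σ, Reveal a b (ans q) ℓ) :
    CCOn (fun _ _ => True) (fun x y => f ((a x)⁻¹ * b y)) (C * (C * ℓ)) := by
  refine (ccOn_of_cert_aux a b ans f c C ℓ hC hconf hrev C ∅ 1 ?_).mono ?_ le_rfl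
  · intro τ _ _
    rw [sdiff_empty]
    exact hC τ
  · intro x y _ q hq
    exact absurd hq (notMem_empty q)

end Pool.Agent.Lib_helper11.GrpRank
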