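import Mathlib
import Pool.Agent.Lib_helper11.GrpRank.Degree
import Pool.Agent.Lib_helper11.GrpRank.Tree

set_option autoImplicit false
set_option linter.unusedSectionVars false
set_option linter.unusedVariables false

/-! The protocol for products. -/

namespace Pool.Agent.Lib_helper11.GrpRank

open Finset Module Pool.Agent.Lib_helper10.LogRank

/-- A factor: positions, queries and how to ask them. -/
structure Factor (H : Type) [Group H] where
  P : Type
  dP : DecidableEq P
  S : Pos H P
  perf : S.Perf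
  Q : Type
  dQ : DecidableEq Q
  A : Q → Type
  ans : ∀ q, H → A q
  ex : H → Finset P → Finset Q
  ex_card : ∀ σ J, (ex σ J).card ≤ 2 * J.card
  cap : ℕ
  amalg : ∀ (σ₀ σ₁ : H) (J₀ J₁ : Finset P), J₀.card + J₁.card ≤ cap →
    (∀ q ∈ ex σ₀ J₀, q ∈ ex σ₁ J₁ → ans q σ₀ = ans q σ₁) →
    ∃ σ, Disjoint (S.supp (σ * σ₀⁻¹)) J₀ ∧ Disjoint (S.supp (σ * σ₁⁻¹)) J₁
  ℓ : ℕ
  rev : ∀ (X Y : Type) (a : X → H) (b : Y → H) (q : Q), Reveal a b (ans q) ℓ

/-! ### The complex span of the translates of a Boolean function -/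

/-- the span of the translates -/
noncomputable def tspan {G : Type} [Group G] (f : G → Bool) : Submodule ℂ (G → ℂ) :=
  Submodule.span ℂ (Set.range fun g => lreg G g fun σ => ((ind f σ : ℝ) : ℂ))

theorem tspan_inv {G : Type} [Group G] (f : G → Bool) (g : G) :
    ∀ u ∈ tspan f, lreg G g u ∈ tspan f := by
  intro u hu
  refine Submodule.span_induction (p := fun u _ => lreg G g u ∈ tspan f) ?_ ?_ ?_ ?_ hu
  · rintro _ ⟨h, rfl⟩
    refine Submodule.subset_span ⟨g * h, ?_⟩
    simp only
    rw [map_mul, Module.End.mul_apply]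
  · rw [map_zero]; exact Submodule.zero_mem _
  · intro x y _ _ hx hy
    rw [map_add]; exact Submodule.add_mem _ hx hy
  · intro c x _ hx
    rw [map_smul]; exact Submodule.smul_mem _ c hx

theorem mem_tspan {G : Type} [Group G] (f : G → Bool) :
    (fun σ => ((ind f σ : ℝ) : ℂ)) ∈ tspan f := by
  refine Submodule.subset_span ⟨1, ?_⟩
  simp only
  rw [map_one, Module.End.one_apply]

/-- complexification of a real vector -/
noncomputable def cx (G : Type) : (G → ℝ) →ₗ[ℝ] (G → ℂ) where
  toFun v σ := (v σ : ℂ)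
  map_add' := by intro a b; funext σ; simp
  map_smul' := by intro a b; funext σ; simp

theorem finrank_tspan {G : Type} [Group G] [Fintype G] (f : G → Bool) :
    finrank ℂ (tspan f) ≤ realRank (fun x y : G => f (x⁻¹ * y)) := by
  classical
  set M : Matrix G G ℝ := Matrix.of fun (x : G) (y : G) => if f (x⁻¹ * y) then (1 : ℝ) else 0
    with hM
  have h1 : realRank (fun x y : G => f (x⁻¹ * y)) = finrank ℝ (Submodule.span ℝ (Set.range M.row)) :=
    Matrix.rank_eq_finrank_span_row M
  set R := Submodule.span ℝ (Set.range M.row) with hR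
  let bs := Module.finBasis ℝ R
  rw [h1]
  let T : Submodule ℂ (G → ℂ) := Submodule.span ℂ (Set.range fun i => cx G (bs i : G → ℝ))
  have h2 : finrank ℂ T ≤ finrank ℝ R := by
    refine (finrank_range_le_card _).trans ?_
    rw [Fintype.card_fin]
  refine le_trans (Submodule.finrank_mono ?_) h2
  have h3 : ∀ v ∈ R, cx G v ∈ T := by
    intro v hv
    have h4 := bs.sum_repr ⟨v, hv⟩
    have h5 : v = ∑ i, (bs.repr ⟨v, hv⟩ i) • (bs i : G → ℝ) := by
      have := congrArg (Subtype.val) h4
      simp only [Submodule.coe_sum, Submodule.coe_smul] at this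
      exact this.symm
    rw [h5, map_sum]
    refine Submodule.sum_mem _ fun i _ => ?_
    rw [map_smul]
    have h6 : (bs.repr ⟨v, hv⟩ i) • cx G (bs i : G → ℝ)
        = ((bs.repr ⟨v, hv⟩ i : ℝ) : ℂ) • cx G (bs i : G → ℝ) := by
      funext σ
      simp
    rw [h6]
    exact Submodule.smul_mem _ _ (Submodule.subset_span ⟨i, rfl⟩)
  unfold tspan
  rw [Submodule.span_le]
  rintro _ ⟨g, rfl⟩
  have h4 := h3 (M.row g) (Submodule.subset_span ⟨g, rfl⟩)
  have h5 : (lreg G g fun σ => ((ind f σ : ℝ) : ℂ)) = cx G (M.row g) := by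
    funext σ
    rw [lreg_apply]
    rfl
  simp only [SetLike.mem_coe]
  rw [h5]
  exact h4

instance tspan_fd {G : Type} [Group G] [Fintype G] (f : G → Bool) :
    FiniteDimensional ℂ (tspan f) := inferInstance

section

variable {ι : Type} [Fintype ι] [DecidableEq ι] {H : ι → Type} [∀ i, Group (H i)]
  [∀ i, Fintype (H i)]

/-- `f` depends on the `i`-th factor. -/
def Dep (f : (∀ i, H i) → Bool) (i : ι) : Prop :=
  ∃ (h : H i) (σ : ∀ i, H i), f (Pi.mulSingle i h * σ) ≠ f σ

theorem main (Fa : ∀ i, Factor (H i)) (f : (∀ i, H i) → Bool) (r : ℕ)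
    (hr : realRank (fun x y : (∀ i, H i) => f (x⁻¹ * y)) ≤ r)
    (hcap : ∀ i, 12 * (3 * Nat.log 2 r) ^ 4 ≤ (Fa i).cap) (ℓ : ℕ)
    (hℓ : ∀ i, Dep f i → (Fa i).ℓ ≤ ℓ) {X Y : Type} (a : X → ∀ i, H i) (b : Y → ∀ i, H i) :
    CCOn (fun _ _ => True) (fun x y => f ((a x)⁻¹ * b y))
      ((12 * (3 * Nat.log 2 r) ^ 4) * ((12 * (3 * Nat.log 2 r) ^ 4) * ℓ)) := by
  classical
  let _ : ∀ i, DecidableEq (Fa i).P := fun i => (Fa i).dP
  let _ : ∀ i, DecidableEq (Fa i).Q := fun i => (Fa i).dQ
  set k := Nat.log 2 r with hk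
  set S : ∀ i, Pos (H i) (Fa i).P := fun i => (Fa i).S with hS
  have hdeg : (prodPos S).DegLe (ind f) (3 * k) := by
    refine degLe S (fun i => (Fa i).perf) (ind f) (tspan f) inferInstance (tspan_inv f)
      (mem_tspan f) k ?_
    exact ((finrank_tspan f).trans hr).trans_lt (Nat.lt_pow_succ_log_self (by norm_num) r)
  choose J hJ1 hJ2 hJ3 using fun σ => (prodPos S).exists_cert hdeg σ
  -- parts of the certificates in the factors
  let Ji : (∀ i, H i) → ∀ i, Finset (Fa i).P := fun σ i =>
    (J σ).preimage (fun p => (⟨i, p⟩ : Σ i, (Fa i).P))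
      ((sigma_mk_injective (β := fun i => (Fa i).P) (i := i)).injOn)
  have hJi : ∀ σ, J σ = Finset.univ.sigma (Ji σ) := by
    intro σ
    ext p
    simp [Ji]
  have hJcard : ∀ σ, ∑ i, (Ji σ i).card ≤ 6 * (3 * k) ^ 4 := by
    intro σ
    rw [← card_sigma, ← hJi]
    exact hJ1 σ
  let c : (∀ i, H i) → Finset (Σ i, (Fa i).Q) := fun σ =>
    Finset.univ.sigma fun i => (Fa i).ex (σ i) (Ji σ i)
  refine ccOn_of_cert (Q := Σ i, (Fa i).Q) (A := fun q => (Fa q.1).A q.2) a b
    (fun q σ => (Fa q.1).ans q.2 (σ q.1)) f c _ ℓ ?_ ?_ ?_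
  · intro σ
    rw [card_sigma]
    calc ∑ i, ((Fa i).ex (σ i) (Ji σ i)).card ≤ ∑ i, 2 * (Ji σ i).card :=
          Finset.sum_le_sum fun i _ => (Fa i).ex_card _ _
      _ = 2 * ∑ i, (Ji σ i).card := by rw [Finset.mul_sum]
      _ ≤ 2 * (6 * (3 * k) ^ 4) := Nat.mul_le_mul_left _ (hJcard σ)
      _ = 12 * (3 * k) ^ 4 := by ring
  · intro σ σ' hne
    by_contra hcon
    push Not at hcon
    have h1 : ∀ i, ∃ τ : H i, Disjoint ((S i).supp (τ * (σ i)⁻¹)) (Ji σ i) ∧
        Disjoint ((S i).supp (τ * (σ' i)⁻¹)) (Ji σ' i) := by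
      intro i
      refine (Fa i).amalg (σ i) (σ' i) _ _ ?_ ?_
      · refine le_trans ?_ (hcap i)
        have h2 : (Ji σ i).card ≤ ∑ i, (Ji σ i).card :=
          Finset.single_le_sum (f := fun i => (Ji σ i).card) (fun _ _ => Nat.zero_le _) (mem_univ i)
        have h3 : (Ji σ' i).card ≤ ∑ i, (Ji σ' i).card :=
          Finset.single_le_sum (f := fun i => (Ji σ' i).card) (fun _ _ => Nat.zero_le _)
            (mem_univ i)
        have h4 := hJcard σ
        have h5 := hJcard σ'
        omega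
      · intro q hq hq'
        exact hcon ⟨i, q⟩ (by simp only [c, mem_sigma, mem_univ, true_and]; exact hq)
          (by simp only [c, mem_sigma, mem_univ, true_and]; exact hq')
    choose τ hτ1 hτ2 using h1
    have h2 : ∀ ρ : (∀ i, H i), (∀ i, Disjoint ((S i).supp (τ i * (ρ i)⁻¹)) (Ji ρ i)) →
        f τ = f ρ := by
      intro ρ hρ
      have h3 := hJ2 ρ (τ * ρ⁻¹) ?_
      · rwa [inv_mul_cancel_right] at h3
      · rw [Finset.disjoint_left]
        intro p hp hp'
        have h4 := (mem_psupp S _ p).1 hp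
        have h5 : p.2 ∈ Ji ρ p.1 := by
          simp only [Ji, mem_preimage]
          exact hp'
        exact (Finset.disjoint_left.1 (hρ p.1)) h4 h5
    exact hne ((h2 σ hτ1).symm.trans (h2 σ' hτ2))
  · intro σ q hq R F c' hc'
    have hq' : q.2 ∈ (Fa q.1).ex (σ q.1) (Ji σ q.1) := by
      simpa only [c, mem_sigma, mem_univ, true_and] using hq
    -- the factor is relevant
    have hdep : Dep f q.1 := by
      have h1 : (Ji σ q.1).Nonempty := by
        rw [nonempty_iff_ne_empty]
        intro h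
        have h2 := (Fa q.1).ex_card (σ q.1) (Ji σ q.1)
        rw [h] at h2 hq'
        rw [card_empty, mul_zero, Nat.le_zero, card_eq_zero] at h2
        rw [h2] at hq'
        exact notMem_empty _ hq'
      obtain ⟨p, hp⟩ := h1
      have hp' : (⟨q.1, p⟩ : Σ i, (Fa i).P) ∈ J σ := by
        simpa only [Ji, mem_preimage] using hp
      obtain ⟨β, h3, h4, h5⟩ := hJ3 σ _ hp'
      have h6 : p ∈ (S q.1).supp (β q.1) := (mem_psupp S β _).1 h3
      set β' : ∀ i, H i := Function.update β q.1 1 with hβ'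
      have h7 : β = Pi.mulSingle q.1 (β q.1) * β' := by
        funext j
        by_cases hj : j = q.1
        · subst hj; simp [hβ']
        · simp [hβ', hj]
      have h8 : f (β' * σ) = f σ := by
        apply h5
        change psupp S β' ⊂ psupp S β
        rw [ssubset_iff_subset_ne]
        constructor
        · intro x hx
          rw [mem_psupp] at hx ⊢
          by_cases hx1 : x.1 = q.1
          · rw [hβ'] at hx
            have : Function.update β q.1 1 x.1 = 1 := by rw [hx1]; simp
            rw [this, (S x.1).one] at hx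
            exact absurd hx (notMem_empty _)
          · rwa [hβ', Function.update_of_ne hx1] at hx
        · intro heq
          have h9 : (⟨q.1, p⟩ : Σ i, (Fa i).P) ∈ psupp S β' := by rw [heq]; exact h3
          rw [mem_psupp] at h9
          simp only [hβ', Function.update_self] at h9
          rw [(S q.1).one] at h9
          exact notMem_empty _ h9
      refine ⟨β q.1, β' * σ, ?_⟩
      rw [← mul_assoc, ← h7, h8]
      exact h4
    have h10 := (Fa q.1).rev X Y (fun x => a x q.1) (fun y => b y q.1) q.2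
    exact (h10.mono (hℓ q.1 hdep)) R F c' hc'

end

end Pool.Agent.Lib_helper11.GrpRank
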