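import Mathlib
import Pool.Agent.Lib_helper11.GrpRank.Main

set_option autoImplicit false
set_option linter.unusedSectionVars false
set_option linter.unusedVariables false

/-! The two kinds of factors: an arbitrary perfect group, and an alternating group. -/

namespace Pool.Agent.Lib_helper11.GrpRank

open Finset Module Pool.Agent.Lib_helper10.LogRank

/-! ### Arbitrary groups: one position -/

/-- support with one position -/
noncomputable def onePos (H : Type) [Group H] : Pos H Unit := by
  classical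
  exact
  { supp := fun h => if h = 1 then ∅ else {()}
    one := by simp
    eq_one := by
      intro g hg
      by_contra h
      simp [h] at hg
    inv := by
      intro g
      by_cases h : g = 1
      · simp [h]
      · simp [h]
    mul := by
      intro g h
      by_cases h1 : g = 1
      · subst h1; simp
      · by_cases h2 : h = 1
        · subst h2; simp
        · intro x hx; simp [h1]
    comm := by
      intro g h hd
      by_cases h1 : g = 1
      · subst h1; exact Commute.one_left _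
      · by_cases h2 : h = 1
        · subst h2; exact Commute.one_right _
        · simp [h1, h2] at hd
    red := by
      intro g hg
      refine ⟨Unit, inferInstance, fun _ => g⁻¹, ?_, ?_, ?_⟩
      · simp [hg]
      · intro i j hij; exact absurd (Subsingleton.elim i j) hij
      · intro _; simp [hg] }

theorem onePos_perf (H : Type) [Group H] (hH : ⁅(⊤ : Subgroup H), (⊤ : Subgroup H)⁆ = ⊤) :
    (onePos H).Perf := by
  classical
  refine ⟨hH, fun a b ha hb hd => ?_⟩
  have h1 : (onePos H).supp a = {()} := by simp [onePos, ha]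
  have h2 : (onePos H).supp b = {()} := by simp [onePos, hb]
  rw [h1, h2] at hd
  simp at hd

theorem rev_send {H : Type} [Group H] [Fintype H] (bb : ℕ) (hb : Fintype.card H ≤ 2 ^ bb)
    (X Y : Type) (a : X → H) (b : Y → H) : Reveal a b (fun σ : H => σ) (2 * bb) := by
  intro R F c h
  have e : c + 2 * bb = (c + bb) + bb := by ring
  rw [e]
  refine sendA a hb fun s => ?_
  refine sendB (fun y => s⁻¹ * b y) hb fun t => ?_
  refine (h t).mono (fun x y hxy => ⟨hxy.1.1, ?_⟩) le_rfl
  simp only
  rw [hxy.1.2]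
  exact hxy.2

/-- The factor given by an arbitrary perfect group of order at most `2 ^ bb`. -/
noncomputable def oneFactor (H : Type) [Group H] [Fintype H]
    (hH : ⁅(⊤ : Subgroup H), (⊤ : Subgroup H)⁆ = ⊤) (bb cap : ℕ) (hb : Fintype.card H ≤ 2 ^ bb) :
    Factor H where
  P := Unit
  dP := inferInstance
  S := onePos H
  perf := onePos_perf H hH
  Q := Unit
  dQ := inferInstance
  A := fun _ => H
  ans := fun _ σ => σ
  ex := fun _ J => J
  ex_card := fun _ J => by omega
  cap := cap
  amalg := by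
    intro σ₀ σ₁ J₀ J₁ _ h
    by_cases h0 : () ∈ J₀
    · refine ⟨σ₀, by rw [mul_inv_cancel, (onePos H).one]; exact disjoint_empty_left _, ?_⟩
      by_cases h1 : () ∈ J₁
      · rw [h () h0 h1, mul_inv_cancel, (onePos H).one]; exact disjoint_empty_left _
      · have : J₁ = ∅ := by
          rw [eq_empty_iff_forall_notMem]
          rintro ⟨⟩
          exact h1
        rw [this]; exact disjoint_empty_right _
    · refine ⟨σ₁, ?_, by rw [mul_inv_cancel, (onePos H).one]; exact disjoint_empty_left _⟩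
      have : J₀ = ∅ := by
        rw [eq_empty_iff_forall_notMem]
        rintro ⟨⟩
        exact h0
      rw [this]; exact disjoint_empty_right _
  ℓ := 2 * bb
  rev := fun X Y a b _ => rev_send bb hb X Y a b

/-! ### Alternating groups -/

section alt

theorem perm_apply_inv {Ω : Type} (e : Equiv.Perm Ω) (x : Ω) : e (e⁻¹ x) = x := by simp

variable (Ω : Type) [Fintype Ω] [DecidableEq Ω]

theorem alt_three_le {g : alternatingGroup Ω} (hg : g ≠ 1) :
    3 ≤ (g : Equiv.Perm Ω).support.card := by
  have h1 : (g : Equiv.Perm Ω) ≠ 1 := fun h => hg (Subtype.ext h)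
  have h2 : 2 ≤ (g : Equiv.Perm Ω).support.card := Equiv.Perm.two_le_card_support_of_ne_one h1
  rcases h2.lt_or_eq with h3 | h3
  · exact h3
  · exfalso
    have h4 := Equiv.Perm.card_support_eq_two.1 h3.symm
    have h5 := h4.sign_eq
    have h6 := Equiv.Perm.mem_alternatingGroup.1 g.2
    rw [h6] at h5
    exact absurd h5 (by decide)

theorem alt_red (g : alternatingGroup Ω) (hg : g ≠ 1) :
    ∃ (m : Type) (_ : Fintype m) (τ : m → alternatingGroup Ω),
    (g : Equiv.Perm Ω).support.card ≤ 6 * Fintype.card m ∧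
    (Pairwise fun i j => Disjoint (τ i : Equiv.Perm Ω).support (τ j : Equiv.Perm Ω).support) ∧
    ∀ i, ((τ i * g : alternatingGroup Ω) : Equiv.Perm Ω).support ⊂ (g : Equiv.Perm Ω).support := by
  classical
  set s := (g : Equiv.Perm Ω).support with hs
  -- families of disjoint good three-cycles
  let 𝓕 : Finset (Finset (alternatingGroup Ω)) := Finset.univ.filter fun A =>
    (∀ τ ∈ A, (τ : Equiv.Perm Ω).support.card = 3 ∧ (τ : Equiv.Perm Ω).support ⊆ s ∧
      ((τ * g : alternatingGroup Ω) : Equiv.Perm Ω).support ⊂ s) ∧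
      ∀ τ ∈ A, ∀ τ' ∈ A, τ ≠ τ' →
        Disjoint (τ : Equiv.Perm Ω).support (τ' : Equiv.Perm Ω).support
  have hne : 𝓕.Nonempty := ⟨∅, by simp [𝓕]⟩
  obtain ⟨A, hA, hmax⟩ := Finset.exists_max_image 𝓕 Finset.card hne
  simp only [𝓕, mem_filter, mem_univ, true_and] at hA
  obtain ⟨hA1, hA2⟩ := hA
  refine ⟨A, inferInstance, fun τ => τ.1, ?_, ?_, fun τ => (hA1 τ τ.2).2.2⟩
  · rw [Fintype.card_coe]
    by_contra hlt
    push Not at hlt
    set U := A.biUnion fun τ => (τ : Equiv.Perm Ω).support with hU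
    have hUcard : U.card ≤ 3 * A.card := by
      refine card_biUnion_le.trans ?_
      rw [Finset.sum_congr rfl fun τ hτ => (hA1 τ hτ).1, Finset.sum_const, smul_eq_mul, mul_comm]
    -- a point x
    have h1 : ∃ x ∈ s, x ∉ U ∧ (g : Equiv.Perm Ω) x ∉ U := by
      by_contra hcon
      push Not at hcon
      have h2 : s ⊆ U ∪ U.image (g : Equiv.Perm Ω).symm := by
        intro x hx
        by_cases hxU : x ∈ U
        · exact mem_union_left _ hxU
        · refine mem_union_right _ (mem_image.2 ⟨_, hcon x hx hxU, ?_⟩)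
          simp
      have h3 := (card_le_card h2).trans ((card_union_le _ _).trans
        (Nat.add_le_add_left card_image_le _))
      omega
    obtain ⟨x, hx, hxU, hyU⟩ := h1
    set y := (g : Equiv.Perm Ω) x with hy
    have hxy : y ≠ x := Equiv.Perm.mem_support.1 hx
    have hys : y ∈ s := Equiv.Perm.apply_mem_support.2 hx
    have h4 : ∃ w ∈ s, w ∉ U ∧ w ≠ x ∧ w ≠ y := by
      by_contra hcon
      push Not at hcon
      have h2 : s ⊆ U ∪ {x, y} := by
        intro w hw
        by_cases hwU : w ∈ U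
        · exact mem_union_left _ hwU
        · refine mem_union_right _ ?_
          by_cases hwx : w = x
          · rw [hwx]; simp
          · rw [hcon w hw hwU hwx]; simp
      have h3 := (card_le_card h2).trans ((card_union_le _ _).trans
        (Nat.add_le_add_left (card_le_two) _))
      have h5 := alt_three_le Ω hg
      rw [← hs] at h5
      omega
    obtain ⟨w, hws, hwU, hwx, hwy⟩ := h4
    let t : Equiv.Perm Ω := Equiv.swap x w * Equiv.swap w y
    have hnd : List.Nodup [x, w, y] := by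
      simp only [List.nodup_cons, List.mem_cons, List.not_mem_nil, or_false, not_or,
        List.nodup_nil, and_true, not_false_eq_true]
      exact ⟨⟨Ne.symm hwx, Ne.symm hxy⟩, hwy⟩
    have htsupp : t.support = {x, w, y} := Equiv.Perm.support_swap_mul_swap hnd
    have htalt : t ∈ alternatingGroup Ω := by
      rw [Equiv.Perm.mem_alternatingGroup]
      simp only [t, map_mul, Equiv.Perm.sign_swap (Ne.symm hwx), Equiv.Perm.sign_swap hwy]
      decide
    let τ : alternatingGroup Ω := ⟨t, htalt⟩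
    have hτs : (τ : Equiv.Perm Ω).support = {x, w, y} := htsupp
    have hcard3 : ({x, w, y} : Finset Ω).card = 3 := by
      rw [card_eq_three]
      exact ⟨x, w, y, Ne.symm hwx, Ne.symm hxy, hwy, rfl⟩
    have hsub : ({x, w, y} : Finset Ω) ⊆ s := by
      intro z hz
      simp only [mem_insert, mem_singleton] at hz
      rcases hz with rfl | rfl | rfl
      · exact hx
      · exact hws
      · exact hys
    have hty : t y = x := by
      simp [t]
    have hss : ((τ * g : alternatingGroup Ω) : Equiv.Perm Ω).support ⊂ s := by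
      rw [ssubset_iff_subset_ne]
      constructor
      · intro z hz
        have h6 : z ∈ (t * (g : Equiv.Perm Ω)).support := hz
        have h7 := Equiv.Perm.support_mul_le t (g : Equiv.Perm Ω) h6
        rcases mem_union.1 h7 with h8 | h8
        · rw [htsupp] at h8; exact hsub h8
        · exact h8
      · intro heq
        have h6 : x ∈ ((τ * g : alternatingGroup Ω) : Equiv.Perm Ω).support := by
          rw [heq]; exact hx
        rw [Equiv.Perm.mem_support] at h6
        exact h6 hty
    have hdis : ∀ τ' ∈ A, Disjoint (τ : Equiv.Perm Ω).support (τ' : Equiv.Perm Ω).support := by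
      intro τ' hτ'
      rw [hτs, Finset.disjoint_left]
      intro z hz hz'
      have hzU : z ∈ U := mem_biUnion.2 ⟨τ', hτ', hz'⟩
      simp only [mem_insert, mem_singleton] at hz
      rcases hz with rfl | rfl | rfl
      · exact hxU hzU
      · exact hwU hzU
      · exact hyU hzU
    have hnot : τ ∉ A := by
      intro h
      have := hdis τ h
      rw [disjoint_self_iff_empty, hτs] at this
      simp at this
    have hins : insert τ A ∈ 𝓕 := by
      simp only [𝓕, mem_filter, mem_univ, true_and]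
      constructor
      · intro γ hγ
        rcases mem_insert.1 hγ with rfl | hγ
        · exact ⟨by rw [hτs, hcard3], by rw [hτs]; exact hsub, hss⟩
        · exact hA1 γ hγ
      · intro γ hγ γ' hγ' hne
        rcases mem_insert.1 hγ with rfl | hγ1 <;> rcases mem_insert.1 hγ' with rfl | hγ1'
        · exact absurd rfl hne
        · exact hdis _ hγ1'
        · exact (hdis _ hγ1).symm
        · exact hA2 _ hγ1 _ hγ1' hne
    have := hmax _ hins
    rw [card_insert_of_notMem hnot] at this
    omega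
  · intro i j hij
    exact hA2 _ i.2 _ j.2 fun h => hij (Subtype.ext h)

/-- the usual support -/
def altPos : Pos (alternatingGroup Ω) Ω where
  supp g := (g : Equiv.Perm Ω).support
  one := by simp
  eq_one := by
    intro g hg
    exact Subtype.ext (Equiv.Perm.support_eq_empty_iff.1 hg)
  inv := by
    intro g
    rw [InvMemClass.coe_inv, Equiv.Perm.support_inv]
  mul := by
    intro g h
    exact Equiv.Perm.support_mul_le _ _
  comm := by
    intro g h hd
    have h1 := (Equiv.Perm.disjoint_iff_disjoint_support.2 hd).commute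
    exact Subtype.ext h1
  red := alt_red Ω

theorem altPos_perf (h5 : 5 ≤ Fintype.card Ω) : (altPos Ω).Perf := by
  classical
  refine ⟨commutator_alternatingGroup_eq_top (by simpa using h5), ?_⟩
  intro a b ha hb hd
  set X := (altPos Ω).supp a ∪ (altPos Ω).supp b with hX
  have hcard : 5 ≤ X.card := by
    rw [hX, card_union_of_disjoint hd]
    have h1 := alt_three_le Ω ha
    have h2 := alt_three_le Ω hb
    change 5 ≤ (a : Equiv.Perm Ω).support.card + (b : Equiv.Perm Ω).support.card
    omega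
  have hK : (altPos Ω).K X = (⊤ : Subgroup (alternatingGroup X)).map (alternatingGroup.ofSubtype X) := by
    rw [← MonoidHom.range_eq_map]
    ext k
    rw [alternatingGroup.mem_range_ofSubtype_iff]
    rfl
  rw [hK, ← Subgroup.map_commutator]
  congr 1
  exact commutator_alternatingGroup_eq_top (by simpa using hcard)

theorem alt_amalg (σ₀ σ₁ : alternatingGroup Ω) (J₀ J₁ : Finset Ω)
    (hc : J₀.card + J₁.card ≤ Fintype.card Ω - 2) (h2 : 2 ≤ Fintype.card Ω)
    (h : ∀ p ∈ J₀, p ∈ J₁ → (σ₀ : Equiv.Perm Ω)⁻¹ p = (σ₁ : Equiv.Perm Ω)⁻¹ p)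
    (h' : ∀ p ∈ J₀, ∀ p' ∈ J₁, (σ₀ : Equiv.Perm Ω)⁻¹ p = (σ₁ : Equiv.Perm Ω)⁻¹ p' → p = p') :
    ∃ σ : alternatingGroup Ω, (∀ p ∈ J₀, (σ : Equiv.Perm Ω)⁻¹ p = (σ₀ : Equiv.Perm Ω)⁻¹ p) ∧
      ∀ p ∈ J₁, (σ : Equiv.Perm Ω)⁻¹ p = (σ₁ : Equiv.Perm Ω)⁻¹ p := by
  classical
  let φ : Ω → Ω := fun p => if p ∈ J₀ then (σ₀ : Equiv.Perm Ω)⁻¹ p else (σ₁ : Equiv.Perm Ω)⁻¹ p
  have hφ0 : ∀ p ∈ J₀, φ p = (σ₀ : Equiv.Perm Ω)⁻¹ p := fun p hp => by simp only [φ, if_pos hp]
  have hφ1 : ∀ p ∈ J₁, φ p = (σ₁ : Equiv.Perm Ω)⁻¹ p := by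
    intro p hp
    by_cases hp0 : p ∈ J₀
    · rw [hφ0 p hp0, h p hp0 hp]
    · simp only [φ, if_neg hp0]
  have hinj : Set.InjOn φ {p | p ∈ J₀ ∪ J₁} := by
    intro p hp p' hp' heq
    rw [Set.mem_ofPred_eq, mem_union] at hp hp'
    rcases hp with hp | hp <;> rcases hp' with hp' | hp'
    · rw [hφ0 p hp, hφ0 p' hp'] at heq
      exact (σ₀ : Equiv.Perm Ω)⁻¹.injective heq
    · rw [hφ0 p hp, hφ1 p' hp'] at heq
      exact h' p hp p' hp' heq
    · rw [hφ1 p hp, hφ0 p' hp'] at heq
      exact (h' p' hp' p hp heq.symm).symm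
    · rw [hφ1 p hp, hφ1 p' hp'] at heq
      exact (σ₁ : Equiv.Perm Ω)⁻¹.injective heq
  let e : {p // p ∈ J₀ ∪ J₁} ≃ {p // p ∈ (J₀ ∪ J₁).image φ} :=
    Equiv.ofBijective (fun p => ⟨φ p, mem_image_of_mem φ p.2⟩) ⟨by
      intro p p' hpp
      exact Subtype.ext (hinj p.2 p'.2 (congrArg Subtype.val hpp)), by
      rintro ⟨q, hq⟩
      obtain ⟨p, hp, rfl⟩ := mem_image.1 hq
      exact ⟨⟨p, hp⟩, rfl⟩⟩
  let π : Equiv.Perm Ω := e.extendSubtype
  have hπ : ∀ p ∈ J₀ ∪ J₁, π p = φ p := by
    intro p hp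
    exact Equiv.extendSubtype_apply_of_mem e p hp
  -- two points outside
  have hlt : 1 < ((J₀ ∪ J₁)ᶜ).card := by
    rw [card_compl]
    have := card_union_le J₀ J₁
    omega
  obtain ⟨u, hu, v, hv, huv⟩ := Finset.one_lt_card.1 hlt
  have key : ∃ π' : Equiv.Perm Ω, Equiv.Perm.sign π' = 1 ∧ ∀ p ∈ J₀ ∪ J₁, π' p = φ p := by
    rcases Int.units_eq_one_or (Equiv.Perm.sign π) with hsg | hsg
    · exact ⟨π, hsg, hπ⟩
    · refine ⟨π * Equiv.swap u v, ?_, fun p hp => ?_⟩
      · rw [map_mul, hsg, Equiv.Perm.sign_swap huv]; decide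
      · rw [Equiv.Perm.mul_apply, Equiv.swap_apply_of_ne_of_ne]
        · exact hπ p hp
        · rintro rfl; exact (mem_compl.1 hu) hp
        · rintro rfl; exact (mem_compl.1 hv) hp
  obtain ⟨π', h1, h3⟩ := key
  refine ⟨⟨π'⁻¹, ?_⟩, ?_, ?_⟩
  · rw [Equiv.Perm.mem_alternatingGroup, Equiv.Perm.sign_inv, h1]
  · intro p hp
    simp only [inv_inv]
    rw [h3 p (mem_union_left _ hp), hφ0 p hp]
  · intro p hp
    simp only [inv_inv]
    rw [h3 p (mem_union_right _ hp), hφ1 p hp]

/-- The factor given by an alternating group. -/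
def altFactor (h5 : 5 ≤ Fintype.card Ω) (bb : ℕ) (hb : Fintype.card Ω ≤ 2 ^ bb) :
    Factor (alternatingGroup Ω) where
  P := Ω
  dP := inferInstance
  S := altPos Ω
  perf := altPos_perf Ω h5
  Q := Ω ⊕ Ω
  dQ := inferInstance
  A := fun _ => Ω
  ans := fun q σ => Sum.elim (fun p => (σ : Equiv.Perm Ω)⁻¹ p) (fun v => (σ : Equiv.Perm Ω) v) q
  ex := fun σ J => J.image Sum.inl ∪ (J.image fun p => (σ : Equiv.Perm Ω)⁻¹ p).image Sum.inr
  ex_card := by
    intro σ J
    refine (card_union_le _ _).trans ?_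
    have h1 := card_image_le (s := J) (f := (Sum.inl : Ω → Ω ⊕ Ω))
    have h2 := card_image_le (s := J.image fun p => (σ : Equiv.Perm Ω)⁻¹ p)
      (f := (Sum.inr : Ω → Ω ⊕ Ω))
    have h3 := card_image_le (s := J) (f := fun p => (σ : Equiv.Perm Ω)⁻¹ p)
    omega
  cap := Fintype.card Ω - 2
  amalg := by
    intro σ₀ σ₁ J₀ J₁ hc h
    obtain ⟨σ, h1, h2⟩ := alt_amalg Ω σ₀ σ₁ J₀ J₁ hc (by omega)
      (fun p hp hp' => h (Sum.inl p) (by simp [hp]) (by simp [hp']))
      (fun p hp p' hp' heq => by
        have h3 := h (Sum.inr ((σ₀ : Equiv.Perm Ω)⁻¹ p))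
          (mem_union_right _ (mem_image_of_mem _ (mem_image.2 ⟨p, hp, rfl⟩)))
          (mem_union_right _ (mem_image_of_mem _ (mem_image.2 ⟨p', hp', heq.symm⟩)))
        simp only [Sum.elim_inr] at h3
        rw [perm_apply_inv, heq, perm_apply_inv] at h3
        exact h3)
    refine ⟨σ, ?_, ?_⟩
    · rw [Finset.disjoint_left]
      intro p hp hp'
      have h3 : p ∈ ((σ : Equiv.Perm Ω) * (σ₀ : Equiv.Perm Ω)⁻¹).support := hp
      rw [Equiv.Perm.mem_support, Equiv.Perm.mul_apply, ← h1 p hp', perm_apply_inv] at h3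
      exact h3 rfl
    · rw [Finset.disjoint_left]
      intro p hp hp'
      have h3 : p ∈ ((σ : Equiv.Perm Ω) * (σ₁ : Equiv.Perm Ω)⁻¹).support := hp
      rw [Equiv.Perm.mem_support, Equiv.Perm.mul_apply, ← h2 p hp', perm_apply_inv] at h3
      exact h3 rfl
  ℓ := 2 * bb
  rev := by
    intro X Y a b q R F c h
    have e : c + 2 * bb = (c + bb) + bb := by ring
    rw [e]
    cases q with
    | inl p =>
      refine sendA (fun x => (a x : Equiv.Perm Ω) p) hb fun s => ?_
      refine sendB (fun y => (b y : Equiv.Perm Ω)⁻¹ s) hb fun t => ?_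
      refine (h t).mono (fun x y hxy => ⟨hxy.1.1, ?_⟩) le_rfl
      simp only [Sum.elim_inl]
      have h1 : (((a x)⁻¹ * b y : alternatingGroup Ω) : Equiv.Perm Ω)⁻¹ p
          = (b y : Equiv.Perm Ω)⁻¹ ((a x : Equiv.Perm Ω) p) := by
        rw [Subgroup.coe_mul, mul_inv_rev, InvMemClass.coe_inv, inv_inv, Equiv.Perm.mul_apply]
      rw [h1, hxy.1.2]
      exact hxy.2
    | inr v =>
      refine sendB (fun y => (b y : Equiv.Perm Ω) v) hb fun s => ?_
      refine sendA (fun x => (a x : Equiv.Perm Ω)⁻¹ s) hb fun t => ?_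
      refine (h t).mono (fun x y hxy => ⟨hxy.1.1, ?_⟩) le_rfl
      simp only [Sum.elim_inr]
      have h1 : (((a x)⁻¹ * b y : alternatingGroup Ω) : Equiv.Perm Ω) v
          = (a x : Equiv.Perm Ω)⁻¹ ((b y : Equiv.Perm Ω) v) := by
        rw [Subgroup.coe_mul, InvMemClass.coe_inv, Equiv.Perm.mul_apply]
      rw [h1, hxy.1.2]
      exact hxy.2

end alt

end Pool.Agent.Lib_helper11.GrpRank
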