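import Mathlib
import Pool.Agent.Lib_helper11.GrpRank.Rep

set_option autoImplicit false
set_option linter.unusedSectionVars false
set_option linter.unusedVariables false

/-! A nontrivial representation of the alternating group on `N` letters has dimension at least
`(N - 5) / 2`. -/

namespace Pool.Agent.Lib_helper11.GrpRank

open Finset Module

theorem alt_minDeg (Ω : Type) [Fintype Ω] [DecidableEq Ω] (h5 : 5 ≤ Fintype.card Ω) {V : Type}
    [AddCommGroup V] [Module ℂ V] [FiniteDimensional ℂ V]
    (ρ : alternatingGroup Ω →* (V →ₗ[ℂ] V)) (hρ : ∃ g, ρ g ≠ 1) :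
    Fintype.card Ω ≤ 2 * finrank ℂ V + 5 := by
  classical
  have : IsSimpleGroup (alternatingGroup Ω) := alternatingGroup.isSimpleGroup (by simpa using h5)
  have hker : ρ.ker = ⊥ := by
    rcases (MonoidHom.normal_ker ρ).eq_bot_or_eq_top with h | h
    · exact h
    · obtain ⟨g, hg⟩ := hρ
      exact absurd ((MonoidHom.mem_ker).1 (h ▸ Subgroup.mem_top g)) hg
  have hdim : 1 ≤ finrank ℂ V := by
    rw [Nat.one_le_iff_ne_zero]
    intro h0
    obtain ⟨g, hg⟩ := hρ
    apply hg
    have := finrank_zero_iff.1 h0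
    ext v
    exact Subsingleton.elim _ _
  by_cases hsmall : Fintype.card Ω ≤ 7
  · omega
  push Not at hsmall
  obtain ⟨p, hp, hp1, hp2⟩ := Nat.exists_prime_lt_and_le_two_mul ((Fintype.card Ω - 2) / 2)
    (by omega)
  have hp3 : 3 ≤ p := by omega
  have hpodd : Odd p := hp.odd_of_ne_two (by omega)
  -- a `p`-cycle
  obtain ⟨g₀, hg₀⟩ := (Equiv.Perm.exists_with_cycleType_iff Ω (m := {p})).2
    ⟨by rw [Multiset.sum_singleton]; omega, by
      intro a ha; rw [Multiset.mem_singleton] at ha; omega⟩
  have hcyc : g₀.IsCycle := by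
    rw [← Equiv.Perm.card_cycleType_eq_one, hg₀, Multiset.card_singleton]
  have hsupp : g₀.support.card = p := by
    rw [← Equiv.Perm.sum_cycleType, hg₀, Multiset.sum_singleton]
  have hord : orderOf g₀ = p := by rw [hcyc.orderOf, hsupp]
  have hsign : g₀ ∈ alternatingGroup Ω := by
    rw [Equiv.Perm.mem_alternatingGroup, Equiv.Perm.sign_of_cycleType, hg₀,
      Multiset.sum_singleton, Multiset.card_singleton]
    exact (hpodd.add_odd odd_one).neg_one_pow
  let g : alternatingGroup Ω := ⟨g₀, hsign⟩
  have hgne : g ≠ 1 := by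
    intro h
    exact hcyc.ne_one (congrArg Subtype.val h)
  have hgp : g ^ p = 1 := by
    apply Subtype.ext
    change g₀ ^ p = 1
    rw [← hord, pow_orderOf_eq_one]
  -- powers of `g` are conjugate to `g`
  have hconj : ∀ m, 0 < m → m < p → IsConj g (g ^ m) := by
    intro m hm0 hm
    refine alternatingGroup.isConj_of ?_ ?_
    · have h1 : (g₀ ^ m).IsCycle :=
        hcyc.isCycle_pow_pos_of_lt_prime_order (by rw [hord]; exact hp) m hm0 (by rw [hord]; exact hm)
      have h2 : (g₀ ^ m).support = g₀.support := by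
        apply Equiv.Perm.support_pow_coprime
        rw [hord]
        exact (Nat.coprime_of_lt_prime hm0.ne' hm hp).symm
      have h3 : IsConj g₀ (g₀ ^ m) := (hcyc.isConj_iff h1).2 (by rw [h2])
      exact h3
    · change g₀.support.card + 2 ≤ _
      rw [hsupp]; omega
  set A := ρ g with hA
  have hAp : A ^ p = 1 := by rw [hA, ← map_pow, hgp, map_one]
  have hA1 : A ≠ 1 := by
    intro h
    have h1 : g ∈ ρ.ker := (MonoidHom.mem_ker).2 h
    rw [hker] at h1
    exact hgne (Subgroup.mem_bot.1 h1)
  set ζ := Complex.exp (2 * Real.pi * Complex.I / p) with hζ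
  have hprim : IsPrimitiveRoot ζ p := Complex.isPrimitiveRoot_exp p hp.pos.ne'
  -- an eigenvector with eigenvalue different from one
  obtain ⟨j, hj0, hjp, v, hv0, hv⟩ : ∃ j, 0 < j ∧ j < p ∧ ∃ v : V, v ≠ 0 ∧ A v = ζ ^ j • v := by
    by_contra hcon
    push Not at hcon
    apply hA1
    ext u
    rw [Module.End.one_apply]
    have h1 := comp_sum A p ζ hprim hp.pos u
    have h2 : ∑ j ∈ Finset.range p, comp A p ζ j u = comp A p ζ 0 u := by
      refine Finset.sum_eq_single_of_mem 0 (Finset.mem_range.2 hp.pos) fun j hj hj0 => ?_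
      by_contra hne
      exact hcon j (Nat.pos_of_ne_zero hj0) (Finset.mem_range.1 hj) _ hne
        (comp_eig A p ζ hprim.pow_eq_one hAp hp.pos j u)
    rw [h2] at h1
    have h3 := comp_eig A p ζ hprim.pow_eq_one hAp hp.pos 0 u
    rw [pow_zero, one_smul, h1] at h3
    exact h3
  have hξ : IsPrimitiveRoot (ζ ^ j) p :=
    hprim.pow_of_coprime j ((Nat.coprime_of_lt_prime hj0.ne' hjp hp).symm)
  -- eigenvectors for all nontrivial eigenvalues
  have hall : ∀ k : Fin (p - 1), ∃ w : V, w ≠ 0 ∧ A w = (ζ ^ j) ^ ((k : ℕ) + 1) • w := by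
    intro k
    have hk1 : (k : ℕ) + 1 < p := by have := k.2; omega
    -- inverse of k+1 modulo p
    have hcop : Nat.Coprime ((k : ℕ) + 1) p := Nat.Coprime.symm
      ((Nat.Prime.coprime_iff_not_dvd hp).2 fun h => by
        have := Nat.le_of_dvd (Nat.succ_pos _) h
        omega)
    obtain ⟨m, hm1, hm⟩ := Nat.exists_mul_mod_eq_one_of_coprime hcop hp.one_lt
    have hm0 : 0 < m := by
      rcases Nat.eq_zero_or_pos m with h | h
      · rw [h] at hm; simp at hm
      · exact h
    obtain ⟨c, hc⟩ := isConj_iff.1 (hconj m hm0 hm1)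
    -- c g c⁻¹ = g ^ m
    refine ⟨ρ c v, ?_, ?_⟩
    · intro h
      apply hv0
      have h1 : ρ c⁻¹ (ρ c v) = v := by
        rw [← Module.End.mul_apply, ← map_mul, inv_mul_cancel, map_one, Module.End.one_apply]
      rw [← h1, h, map_zero]
    · have h1 : (A ^ m) (ρ c v) = ζ ^ j • ρ c v := by
        rw [hA, ← map_pow, ← hc, map_mul, map_mul, Module.End.mul_apply, Module.End.mul_apply]
        have h2 : ρ c⁻¹ (ρ c v) = v := by
          rw [← Module.End.mul_apply, ← map_mul, inv_mul_cancel, map_one, Module.End.one_apply]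
        rw [h2, ← hA, hv, map_smul]
      have h3 : ∀ n : ℕ, ((A ^ m) ^ n) (ρ c v) = (ζ ^ j) ^ n • ρ c v := by
        intro n
        induction n with
        | zero => simp
        | succ n ih =>
          rw [pow_succ', Module.End.mul_apply, ih, map_smul, h1, smul_smul, ← pow_succ]
      have h4 := h3 ((k : ℕ) + 1)
      have h5 : (A ^ m) ^ ((k : ℕ) + 1) = A := by
        rw [← pow_mul]
        have h6 : m * ((k : ℕ) + 1) = p * (m * ((k : ℕ) + 1) / p) + 1 := by
          have h7 := Nat.div_add_mod (m * ((k : ℕ) + 1)) p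
          rw [mul_comm m ((k : ℕ) + 1), hm] at h7
          rw [mul_comm m ((k : ℕ) + 1)]
          exact h7.symm
        rw [h6, pow_succ, pow_mul, hAp, one_pow, one_mul]
      rw [h5] at h4
      exact h4
  choose w hw0 hw using hall
  have hli : LinearIndependent ℂ w := by
    refine Module.End.eigenvectors_linearIndependent' A
      (fun k : Fin (p - 1) => (ζ ^ j) ^ ((k : ℕ) + 1)) ?_ w fun k => ?_
    · intro k k' hkk
      have h1 := hξ.pow_inj (by have := k.2; omega) (by have := k'.2; omega) hkk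
      exact Fin.ext (by omega)
    · rw [Module.End.hasEigenvector_iff, Module.End.mem_eigenspace_iff]
      exact ⟨hw k, hw0 k⟩
  have hfin := hli.fintype_card_le_finrank
  rw [Fintype.card_fin] at hfin
  omega

end Pool.Agent.Lib_helper11.GrpRank
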