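import Mathlib
import Pool.Agent.Lib_helper11.GrpRank.Defs
import Pool.Agent.Lib_helper11.GrpRank.Fac
import Pool.Agent.Lib_helper11.GrpRank.MinDeg
import Pool.Agent.Lib_helper10.LogRank.Final

set_option autoImplicit false
set_option linter.unusedSectionVars false
set_option linter.unusedVariables false

/-! The final theorem. -/

namespace Pool.Agent.Lib_helper11.GrpRank

open Finset Module Pool.Agent.Lib_helper10.LogRank

section rep

variable {ι : Type} [Fintype ι] [DecidableEq ι] {H : ι → Type} [∀ i, Group (H i)]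
  [∀ i, Fintype (H i)]

/-- the representation of a factor on the span of the translates -/
noncomputable def frep (f : (∀ i, H i) → Bool) (i : ι) : H i →* (tspan f →ₗ[ℂ] tspan f) where
  toFun h := (lreg _ (Pi.mulSingle i h : ∀ i, H i)).restrict (tspan_inv f _)
  map_one' := by
    ext v : 1
    apply Subtype.ext
    rw [LinearMap.coe_restrict_apply, Pi.mulSingle_one, map_one]
    rfl
  map_mul' := by
    intro a b
    ext v : 1
    apply Subtype.ext
    rw [LinearMap.coe_restrict_apply, Pi.mulSingle_mul, map_mul]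
    rfl

theorem frep_ne {f : (∀ i, H i) → Bool} {i : ι} (h : Dep f i) : ∃ g, frep f i g ≠ 1 := by
  obtain ⟨g, σ, hne⟩ := h
  refine ⟨g⁻¹, fun heq => hne ?_⟩
  have h1 : (((frep f i g⁻¹) ⟨_, mem_tspan f⟩ : tspan f) : (∀ i, H i) → ℂ) σ
      = ((ind f σ : ℝ) : ℂ) := by rw [heq]; rfl
  have h2 : (((frep f i g⁻¹) ⟨_, mem_tspan f⟩ : tspan f) : (∀ i, H i) → ℂ) σ
      = ((ind f (Pi.mulSingle i g * σ) : ℝ) : ℂ) := by
    change ((ind f ((Pi.mulSingle i g⁻¹ : ∀ i, H i)⁻¹ * σ) : ℝ) : ℂ) = _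
    rw [← Pi.mulSingle_inv, inv_inv]
  rw [h2] at h1
  have h3 : ((ind f (Pi.mulSingle i g * σ) : ℝ) : ℂ) = ((ind f σ : ℝ) : ℂ) := h1
  have h4 : ind f (Pi.mulSingle i g * σ) = ind f σ := by exact_mod_cast h3
  unfold ind at h4
  cases hx : f (Pi.mulSingle i g * σ) <;> cases hy : f σ <;> simp [hx, hy] at h4 ⊢

end rep

/-- matrix form of a representation -/
theorem exists_matrix {G : Type} [Group G] {V : Type} [AddCommGroup V] [Module ℂ V]
    [FiniteDimensional ℂ V] (ρ : G →* (V →ₗ[ℂ] V)) (h : ∃ g, ρ g ≠ 1) :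
    ∃ ρ' : G →* Matrix (Fin (finrank ℂ V)) (Fin (finrank ℂ V)) ℂ, ∃ g, ρ' g ≠ 1 := by
  let b := Module.finBasis ℂ V
  let e := (LinearMap.toMatrixAlgEquiv b).toMulEquiv
  refine ⟨e.toMonoidHom.comp ρ, ?_⟩
  obtain ⟨g, hg⟩ := h
  refine ⟨g, fun h1 => hg ?_⟩
  apply e.injective
  rw [map_one]
  exact h1

/-- For every admissible group there is a good factor structure on an isomorphic group. -/
theorem exists_factor' {A c : ℕ} {G : Type} [Group G] [Finite G] (hG : Admissible A c G)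
    (r : ℕ) :
    ∃ (H : Type) (_ : Group H) (_ : Fintype H) (_ : H ≃* G) (Fa : Factor H),
      12 * (3 * Nat.log 2 r) ^ 4 ≤ Fa.cap ∧
      ∀ (V : Type) [AddCommGroup V] [Module ℂ V] [FiniteDimensional ℂ V]
        (ρ : H →* (V →ₗ[ℂ] V)), (∃ g, ρ g ≠ 1) → finrank ℂ V ≤ r →
        Fa.ℓ ≤ 2 * (A * (Nat.log 2 r + 1) ^ c +
          (12 * (3 * Nat.log 2 r) ^ 4 + 1) * (10 + 4 * Nat.log 2 r)) := by
  classical
  set k := Nat.log 2 r with hk
  set m := 12 * (3 * k) ^ 4 with hm
  have hr : r < 2 ^ (k + 1) := Nat.lt_pow_succ_log_self (by norm_num) r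
  rcases hG with ⟨n, hn, ⟨e⟩⟩ | ⟨hperf, hbd⟩
  · by_cases hlarge : m + 2 ≤ n
    · -- large alternating group
      have hcard : Fintype.card (Fin n) = n := Fintype.card_fin n
      refine ⟨alternatingGroup (Fin n), inferInstance, inferInstance, e.symm,
        altFactor (Fin n) (by rw [hcard]; exact hn) (Nat.clog 2 n)
          (by rw [hcard]; exact Nat.le_pow_clog (by norm_num) n), ?_, ?_⟩
      · change m ≤ Fintype.card (Fin n) - 2
        rw [hcard]; omega
      · intro V _ _ _ ρ hρ hV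
        change 2 * Nat.clog 2 n ≤ _
        have h1 := alt_minDeg (Fin n) (by rw [hcard]; exact hn) ρ hρ
        rw [hcard] at h1
        have h2 : n ≤ 2 ^ (10 + 4 * k) := by
          have h3 : n ≤ 2 * r + 5 := by omega
          have h4 : 2 ^ (k + 1) * 2 ^ 9 ≤ 2 ^ (10 + 4 * k) := by
            rw [← pow_add]
            exact Nat.pow_le_pow_right (by norm_num) (by omega)
          have h5 : 1 ≤ 2 ^ (k + 1) := Nat.one_le_two_pow
          omega
        have h3 : Nat.clog 2 n ≤ 10 + 4 * k := Nat.clog_le_of_le_pow h2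
        have h4 : 1 * (10 + 4 * k) ≤ (m + 1) * (10 + 4 * k) := Nat.mul_le_mul_right _ (by omega)
        omega
    · -- small alternating group
      have hn' : n ≤ m + 1 := by omega
      have hn2 : n ≤ 2 ^ (10 + 4 * k) := by
        have h1 : m + 1 ≤ 2 ^ (10 + 4 * k) := by
          have h2 : k ^ 4 ≤ 2 ^ (4 * k) := by
            rw [mul_comm, pow_mul]
            exact Nat.pow_le_pow_left (Nat.lt_two_pow_self).le 4
          have h3 : 2 ^ (10 + 4 * k) = 1024 * 2 ^ (4 * k) := by rw [pow_add]; norm_num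
          have h4 : m = 972 * k ^ 4 := by rw [hm]; ring
          have h5 : 1 ≤ 2 ^ (4 * k) := Nat.one_le_two_pow
          rw [h3, h4]
          omega
        exact hn'.trans h1
      have hcardA : Fintype.card (alternatingGroup (Fin n)) ≤ 2 ^ ((m + 1) * (10 + 4 * k)) := by
        calc Fintype.card (alternatingGroup (Fin n)) ≤ Fintype.card (Equiv.Perm (Fin n)) :=
              Fintype.card_le_of_injective _ Subtype.val_injective
          _ = n.factorial := by rw [Fintype.card_perm, Fintype.card_fin]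
          _ ≤ n ^ n := Nat.factorial_le_pow n
          _ ≤ (2 ^ (10 + 4 * k)) ^ n := Nat.pow_le_pow_left hn2 n
          _ = 2 ^ ((10 + 4 * k) * n) := by rw [pow_mul]
          _ ≤ _ := Nat.pow_le_pow_right (by norm_num) (by
              rw [mul_comm]; exact Nat.mul_le_mul_right _ hn')
      refine ⟨alternatingGroup (Fin n), inferInstance, inferInstance, e.symm,
        oneFactor _ (commutator_alternatingGroup_eq_top (by simpa using hn))
          ((m + 1) * (10 + 4 * k)) m hcardA, le_rfl, ?_⟩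
      intro V _ _ _ ρ hρ hV
      change 2 * ((m + 1) * (10 + 4 * k)) ≤ _
      omega
  · let _ : Fintype G := Fintype.ofFinite G
    refine ⟨G, inferInstance, inferInstance, MulEquiv.refl G,
      oneFactor G hperf (Nat.clog 2 (Fintype.card G)) m (Nat.le_pow_clog (by norm_num) _),
      le_rfl, ?_⟩
    intro V _ _ _ ρ hρ hV
    change 2 * Nat.clog 2 (Fintype.card G) ≤ _
    obtain ⟨ρ', hρ'⟩ := exists_matrix ρ hρ
    have h1 := hbd _ ρ' hρ'
    rw [Nat.card_eq_fintype_card] at h1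
    have h2 : Nat.clog 2 (finrank ℂ V) ≤ k + 1 :=
      Nat.clog_le_of_le_pow (hV.trans hr.le)
    have h3 : Nat.clog 2 (Fintype.card G) ≤ A * (Nat.clog 2 (finrank ℂ V)) ^ c :=
      Nat.clog_le_of_le_pow h1
    have h4 : A * (Nat.clog 2 (finrank ℂ V)) ^ c ≤ A * (k + 1) ^ c :=
      Nat.mul_le_mul_left _ (Nat.pow_le_pow_left h2 c)
    omega

/-- The protocol for functions `f ((a x)⁻¹ * b y)` on products of admissible groups. -/
theorem main_group {A c : ℕ} {ι : Type} [Fintype ι] {G : ι → Type} [∀ i, Group (G i)]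
    [∀ i, Finite (G i)] (hG : ∀ i, Admissible A c (G i)) [Fintype (∀ i, G i)]
    (f : (∀ i, G i) → Bool) (r : ℕ)
    (hr : realRank (fun x y : (∀ i, G i) => f (x⁻¹ * y)) ≤ r)
    {X Y : Type} (a : X → ∀ i, G i) (b : Y → ∀ i, G i) :
    CCOn (fun _ _ => True) (fun x y => f ((a x)⁻¹ * b y))
      ((12 * (3 * Nat.log 2 r) ^ 4) * ((12 * (3 * Nat.log 2 r) ^ 4) *
        (2 * (A * (Nat.log 2 r + 1) ^ c +
          (12 * (3 * Nat.log 2 r) ^ 4 + 1) * (10 + 4 * Nat.log 2 r))))) := by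
  classical
  choose H gH fH e Fa hcap hℓ using fun i => exists_factor' (hG i) r
  let E : (∀ i, H i) ≃* (∀ i, G i) := MulEquiv.piCongrRight e
  let f' : (∀ i, H i) → Bool := fun σ => f (E σ)
  have hr' : realRank (fun x y : (∀ i, H i) => f' (x⁻¹ * y)) ≤ r := by
    refine le_trans ?_ hr
    have h1 := realRank_comp_le (fun x y : (∀ i, G i) => f (x⁻¹ * y)) E E
    refine le_trans (le_of_eq ?_) h1
    congr 1
    funext x y
    simp only [f', map_mul, map_inv]
  have hdim : finrank ℂ (tspan f') ≤ r := (finrank_tspan f').trans hr'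
  have h2 := main Fa f' r hr' hcap _ (fun i hi => hℓ i (tspan f') (frep f' i) (frep_ne hi) hdim)
    (fun x => E.symm (a x)) (fun y => E.symm (b y))
  refine h2.congr fun x y _ => ?_
  simp only [f', map_mul, map_inv, MulEquiv.apply_symm_apply]

theorem realRank_pos {X Y : Type} [Fintype X] [Fintype Y] (F : X → Y → Bool)
    (hne : ∃ x y, F x y = true) : 0 < realRank F := by
  rcases Nat.eq_zero_or_pos (realRank F) with h | h
  · exfalso
    obtain ⟨x, y, hxy⟩ := hne
    have h1 := realRank_comp_le F (fun _ : Fin 1 => x) (fun _ : Fin 1 => y)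
    rw [h] at h1
    have h2 : realRank (fun _ _ : Fin 1 => F x y) = 1 := by
      unfold realRank
      rw [hxy]
      have : (Matrix.of fun (_ : Fin 1) (_ : Fin 1) => if true = true then (1 : ℝ) else 0)
          = (1 : Matrix (Fin 1) (Fin 1) ℝ) := by
        ext i j
        have : i = j := Subsingleton.elim _ _
        subst this
        simp
      rw [this, Matrix.rank_one]
      simp
    rw [h2] at h1
    omega
  · exact h

/-- the arithmetic of the cost -/
theorem cost_le {A c k t : ℕ} {L : ℝ} (hL : (k : ℝ) + 1 ≤ L) :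
    (((12 * (3 * k) ^ 4) * ((12 * (3 * k) ^ 4) *
        (2 * (A * (k + 1) ^ c + (12 * (3 * k) ^ 4 + 1) * (10 + 4 * k)))) + t + t : ℕ) : ℝ)
      ≤ 2 * t + 18385496640 * ((A : ℝ) + 1) * L ^ (8 + max c 5) := by
  have hk0 : (0 : ℝ) ≤ k := Nat.cast_nonneg k
  have hA0 : (0 : ℝ) ≤ A := Nat.cast_nonneg A
  set K : ℝ := (k : ℝ) + 1 with hK
  have hK1 : 1 ≤ K := by linarith
  have hkK : (k : ℝ) ≤ K := by linarith
  have hm : (12 * (3 * (k : ℝ)) ^ 4) ≤ 972 * K ^ 4 := by
    have : (k : ℝ) ^ 4 ≤ K ^ 4 := pow_le_pow_left₀ hk0 hkK 4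
    calc (12 * (3 * (k : ℝ)) ^ 4) = 972 * (k : ℝ) ^ 4 := by ring
      _ ≤ 972 * K ^ 4 := by linarith
  have hm0 : 0 ≤ (12 * (3 * (k : ℝ)) ^ 4) := by positivity
  have hK4 : 1 ≤ K ^ 4 := one_le_pow₀ hK1
  have hE : (12 * (3 * (k : ℝ)) ^ 4 + 1) * (10 + 4 * k) ≤ 9730 * K ^ 5 := by
    calc (12 * (3 * (k : ℝ)) ^ 4 + 1) * (10 + 4 * k) ≤ (973 * K ^ 4) * (10 * K) := by
          apply mul_le_mul (by linarith) (by linarith) (by positivity) (by positivity)
      _ = 9730 * K ^ 5 := by ring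
  have hmx1 : K ^ 5 ≤ K ^ (max c 5) := pow_le_pow_right₀ hK1 (le_max_right _ _)
  have hmx2 : K ^ c ≤ K ^ (max c 5) := pow_le_pow_right₀ hK1 (le_max_left _ _)
  have hP : 0 ≤ K ^ (max c 5) := by positivity
  have hℓ : 2 * ((A : ℝ) * K ^ c + (12 * (3 * (k : ℝ)) ^ 4 + 1) * (10 + 4 * k)) ≤
      19460 * ((A : ℝ) + 1) * K ^ (max c 5) := by
    have h1 : (A : ℝ) * K ^ c ≤ A * K ^ (max c 5) := mul_le_mul_of_nonneg_left hmx2 hA0
    nlinarith [mul_nonneg hA0 hP]
  have hℓ0 : 0 ≤ 2 * ((A : ℝ) * K ^ c + (12 * (3 * (k : ℝ)) ^ 4 + 1) * (10 + 4 * k)) := by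
    positivity
  have h1 : (12 * (3 * (k : ℝ)) ^ 4) * ((12 * (3 * (k : ℝ)) ^ 4) *
      (2 * ((A : ℝ) * K ^ c + (12 * (3 * (k : ℝ)) ^ 4 + 1) * (10 + 4 * k)))) ≤
      (972 * K ^ 4) * ((972 * K ^ 4) * (19460 * ((A : ℝ) + 1) * K ^ (max c 5))) := by
    refine mul_le_mul hm ?_ (mul_nonneg hm0 hℓ0) (by positivity)
    exact mul_le_mul hm hℓ hℓ0 (by positivity)
  have h2 : (972 * K ^ 4) * ((972 * K ^ 4) * (19460 * ((A : ℝ) + 1) * K ^ (max c 5))) =
      18385496640 * ((A : ℝ) + 1) * K ^ (8 + max c 5) := by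
    rw [pow_add]; ring
  have h3 : K ^ (8 + max c 5) ≤ L ^ (8 + max c 5) := pow_le_pow_left₀ (by linarith) hL _
  have h4 : 18385496640 * ((A : ℝ) + 1) * K ^ (8 + max c 5) ≤
      18385496640 * ((A : ℝ) + 1) * L ^ (8 + max c 5) :=
    mul_le_mul_of_nonneg_left h3 (by positivity)
  push_cast
  rw [← hK]
  linarith

/-- The log-rank bound for matrices invariant under a product of admissible groups. -/
theorem logRank_group (A c t : ℕ) (ι : Type) [Fintype ι] (G : ι → Type) [∀ i, Group (G i)]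
    [∀ i, Finite (G i)] (hG : ∀ i, Admissible A c (G i))
    (X Y : Type) [Fintype X] [Fintype Y] [MulAction (∀ i, G i) X] [MulAction (∀ i, G i) Y]
    (hX : Nat.card (MulAction.orbitRel.Quotient (∀ i, G i) X) ≤ 2 ^ t)
    (hY : Nat.card (MulAction.orbitRel.Quotient (∀ i, G i) Y) ≤ 2 ^ t)
    (F : X → Y → Bool) (hF : ∀ (g : ∀ i, G i) (x : X) (y : Y), F (g • x) (g • y) = F x y)
    (hne : ∃ x y, F x y = true) :
    ∃ π : Protocol X Y, (∀ x y, π.eval x y = F x y) ∧
      (π.cost : ℝ) ≤ 2 * t + 18385496640 * ((A : ℝ) + 1) *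
        (1 + Real.logb 2 (realRank F)) ^ (8 + max c 5) := by
  classical
  let _ : Fintype (∀ i, G i) := Fintype.ofFinite _
  let QX := MulAction.orbitRel.Quotient (∀ i, G i) X
  let QY := MulAction.orbitRel.Quotient (∀ i, G i) Y
  let _ : Fintype QX := Fintype.ofFinite _
  let _ : Fintype QY := Fintype.ofFinite _
  set r := realRank F with hr
  have hr0 : 0 < r := realRank_pos F hne
  set k := Nat.log 2 r with hk
  have key : CCOn (fun _ _ => True) F
      ((12 * (3 * k) ^ 4) * ((12 * (3 * k) ^ 4) *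
        (2 * (A * (k + 1) ^ c + (12 * (3 * k) ^ 4 + 1) * (10 + 4 * k)))) + t + t) := by
    refine sendA (fun x => (Quotient.mk'' x : QX)) (by rwa [Nat.card_eq_fintype_card] at hX)
      fun qx => ?_
    refine sendB (fun y => (Quotient.mk'' y : QY)) (by rwa [Nat.card_eq_fintype_card] at hY)
      fun qy => ?_
    -- representatives
    obtain ⟨x₀, hx₀⟩ := Quotient.exists_rep qx
    obtain ⟨y₀, hy₀⟩ := Quotient.exists_rep qy
    have hgx : ∀ x, ∃ g : ∀ i, G i, (Quotient.mk'' x : QX) = qx → g • x₀ = x := by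
      intro x
      by_cases h : (Quotient.mk'' x : QX) = qx
      · rw [← hx₀] at h
        have h1 : (MulAction.orbitRel (∀ i, G i) X) x x₀ := Quotient.exact h
        obtain ⟨g, hg⟩ := h1
        exact ⟨g, fun _ => hg⟩
      · exact ⟨1, fun h' => absurd h' h⟩
    have hgy : ∀ y, ∃ g : ∀ i, G i, (Quotient.mk'' y : QY) = qy → g • y₀ = y := by
      intro y
      by_cases h : (Quotient.mk'' y : QY) = qy
      · rw [← hy₀] at h
        have h1 : (MulAction.orbitRel (∀ i, G i) Y) y y₀ := Quotient.exact h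
        obtain ⟨g, hg⟩ := h1
        exact ⟨g, fun _ => hg⟩
      · exact ⟨1, fun h' => absurd h' h⟩
    choose a ha using hgx
    choose b hb using hgy
    let f : (∀ i, G i) → Bool := fun σ => F x₀ (σ • y₀)
    have hfr : realRank (fun x y : (∀ i, G i) => f (x⁻¹ * y)) ≤ r := by
      have h1 := realRank_comp_le F (fun g : (∀ i, G i) => g • x₀) (fun g : (∀ i, G i) => g • y₀)
      refine le_trans (le_of_eq ?_) h1
      congr 1
      funext x y
      simp only [f]
      rw [← hF x x₀, smul_smul, mul_inv_cancel_left]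
    have h2 := main_group hG f r hfr a b
    rw [← hk] at h2
    refine (h2.mono (fun _ _ _ => trivial) le_rfl).congr fun x y hxy => ?_
    obtain ⟨⟨_, h3⟩, h4⟩ := hxy
    simp only [f]
    rw [← hF (a x) x₀, smul_smul, mul_inv_cancel_left, ha x h3, hb y h4]
  obtain ⟨π, h1, h2⟩ := key
  refine ⟨π, fun x y => h2 x y trivial, ?_⟩
  refine le_trans (Nat.cast_le.2 h1) (cost_le ?_)
  have h3 : (2 : ℝ) ^ k ≤ r := by
    exact_mod_cast Nat.pow_log_le_self 2 hr0.ne'
  have h4 : (k : ℝ) ≤ Real.logb 2 r := by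
    rw [Real.le_logb_iff_rpow_le (by norm_num) (by exact_mod_cast hr0)]
    rw [Real.rpow_natCast]
    exact h3
  linarith

end Pool.Agent.Lib_helper11.GrpRank
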